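import Mathlib

open scoped Topology Pointwise

namespace Pool.Agent.Results.MP_046d9d_an.ComplexRange

universe u v

section defs

variable {𝕜 : Type} [RCLike 𝕜] {X : Type u} [NormedAddCommGroup X] [NormedSpace 𝕜 X] {k : ℕ}

/-- The norm `‖P‖ = sup_{‖x‖ = 1} ‖P x‖` of the `k`-homogeneous polynomial `P x = A (x, …, x)`. -/
noncomputable def polyNorm (A : ContinuousMultilinearMap 𝕜 (fun _ : Fin k => X) X) : ℝ :=
  sSup {r : ℝ | ∃ x : X, ‖x‖ = 1 ∧ r = ‖A (fun _ => x)‖}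

/-- The numerical radius `v(P) = sup {|f (P x)| : ‖x‖ = ‖f‖ = f x = 1}` of `P x = A (x, …, x)`. -/
noncomputable def numRadius (A : ContinuousMultilinearMap 𝕜 (fun _ : Fin k => X) X) : ℝ :=
  sSup {r : ℝ | ∃ (x : X) (f : X →L[𝕜] 𝕜), ‖x‖ = 1 ∧ ‖f‖ = 1 ∧ f x = 1 ∧
    r = ‖f (A (fun _ => x))‖}

variable (𝕜 k X)

/-- The polynomial numerical index `n^{(k)}(X) = inf {v(P) : ‖P‖ = 1}`. -/
noncomputable def polyIndex : ℝ :=
  sInf {r : ℝ | ∃ A : ContinuousMultilinearMap 𝕜 (fun _ : Fin k => X) X,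
    polyNorm A = 1 ∧ r = numRadius A}

/-- The set of all values `n^{(k)}(X)` for nonzero Banach spaces `X` over `𝕜`. -/
def indexRange : Set ℝ :=
  {r : ℝ | ∃ (X : Type u) (_ : NormedAddCommGroup X) (_ : NormedSpace 𝕜 X)
    (_ : CompleteSpace X) (_ : Nontrivial X), r = polyIndex 𝕜 X k}

end defs

section basic

variable {𝕜 : Type} [RCLike 𝕜] {X : Type u} [NormedAddCommGroup X] [NormedSpace 𝕜 X] {k : ℕ}

lemma norm_diag_le (A : ContinuousMultilinearMap 𝕜 (fun _ : Fin k => X) X) (x : X) :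
    ‖A (fun _ => x)‖ ≤ ‖A‖ * ‖x‖ ^ k := by
  have := A.le_opNorm (fun _ => x)
  simpa using this

lemma bddAbove_polyNorm (A : ContinuousMultilinearMap 𝕜 (fun _ : Fin k => X) X) :
    BddAbove {r : ℝ | ∃ x : X, ‖x‖ = 1 ∧ r = ‖A (fun _ => x)‖} := by
  refine ⟨‖A‖, ?_⟩
  rintro r ⟨x, hx, rfl⟩
  have := norm_diag_le A x
  simpa [hx] using this

lemma bddAbove_numRadius (A : ContinuousMultilinearMap 𝕜 (fun _ : Fin k => X) X) :
    BddAbove {r : ℝ | ∃ (x : X) (f : X →L[𝕜] 𝕜), ‖x‖ = 1 ∧ ‖f‖ = 1 ∧ f x = 1 ∧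
      r = ‖f (A (fun _ => x))‖} := by
  refine ⟨‖A‖, ?_⟩
  rintro r ⟨x, f, hx, hf, -, rfl⟩
  have h1 := norm_diag_le A x
  have h2 := f.le_opNorm (A (fun _ => x))
  rw [hf, one_mul] at h2
  simp only [hx, one_pow, mul_one] at h1
  exact h2.trans h1

lemma le_polyNorm (A : ContinuousMultilinearMap 𝕜 (fun _ : Fin k => X) X) {x : X} (hx : ‖x‖ = 1) :
    ‖A (fun _ => x)‖ ≤ polyNorm A :=
  le_csSup (bddAbove_polyNorm A) ⟨x, hx, rfl⟩

lemma le_numRadius (A : ContinuousMultilinearMap 𝕜 (fun _ : Fin k => X) X) {x : X}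
    {f : X →L[𝕜] 𝕜} (hx : ‖x‖ = 1) (hf : ‖f‖ = 1) (hfx : f x = 1) :
    ‖f (A (fun _ => x))‖ ≤ numRadius A :=
  le_csSup (bddAbove_numRadius A) ⟨x, f, hx, hf, hfx, rfl⟩

lemma polyNorm_nonneg (A : ContinuousMultilinearMap 𝕜 (fun _ : Fin k => X) X) :
    0 ≤ polyNorm A := by
  apply Real.sSup_nonneg
  rintro r ⟨x, -, rfl⟩
  exact norm_nonneg _

lemma numRadius_nonneg (A : ContinuousMultilinearMap 𝕜 (fun _ : Fin k => X) X) :
    0 ≤ numRadius A := by
  apply Real.sSup_nonneg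
  rintro r ⟨x, f, -, -, -, rfl⟩
  exact norm_nonneg _

lemma diag_smul (A : ContinuousMultilinearMap 𝕜 (fun _ : Fin k => X) X) (c : 𝕜) (x : X) :
    A (fun _ => c • x) = c ^ k • A (fun _ => x) := by
  have := A.map_smul_univ (fun _ => c) (fun _ => x)
  simpa using this

/-- `‖P x‖ ≤ ‖P‖ ‖x‖ ^ k`. -/
lemma diag_le (hk : k ≠ 0) (A : ContinuousMultilinearMap 𝕜 (fun _ : Fin k => X) X) (x : X) :
    ‖A (fun _ => x)‖ ≤ polyNorm A * ‖x‖ ^ k := by
  by_cases hx : x = 0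
  · subst hx
    have h1 := diag_smul A 0 (0 : X)
    rw [zero_smul, zero_pow hk, zero_smul] at h1
    rw [h1]
    simp [hk]
  · have hx' : ‖x‖ ≠ 0 := norm_ne_zero_iff.mpr hx
    set y : X := ((‖x‖⁻¹ : ℝ) : 𝕜) • x with hy
    have hy1 : ‖y‖ = 1 := by
      rw [hy, norm_smul, RCLike.norm_ofReal, abs_of_nonneg (inv_nonneg.mpr (norm_nonneg _)),
        inv_mul_cancel₀ hx']
    have hxy : x = ((‖x‖ : ℝ) : 𝕜) • y := by
      rw [hy, smul_smul, ← RCLike.ofReal_mul, mul_inv_cancel₀ hx', RCLike.ofReal_one, one_smul]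
    have h1 := le_polyNorm A hy1
    conv_lhs => rw [hxy]
    rw [diag_smul, norm_smul, norm_pow, RCLike.norm_ofReal, abs_norm, mul_comm]
    exact mul_le_mul_of_nonneg_right h1 (by positivity)

/-- Homogeneous form of the numerical radius bound. -/
lemma num_le (A : ContinuousMultilinearMap 𝕜 (fun _ : Fin k => X) X) {x : X}
    {f : X →L[𝕜] 𝕜} (hx : x ≠ 0) (hf : ‖f‖ ≤ 1) (hfx : f x = (‖x‖ : 𝕜)) :
    ‖f (A (fun _ => x))‖ ≤ numRadius A * ‖x‖ ^ k := by
  have hx' : ‖x‖ ≠ 0 := norm_ne_zero_iff.mpr hx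
  set y : X := ((‖x‖⁻¹ : ℝ) : 𝕜) • x with hy
  have hy1 : ‖y‖ = 1 := by
    rw [hy, norm_smul, RCLike.norm_ofReal, abs_of_nonneg (inv_nonneg.mpr (norm_nonneg _)),
      inv_mul_cancel₀ hx']
  have hxy : x = ((‖x‖ : ℝ) : 𝕜) • y := by
    rw [hy, smul_smul, ← RCLike.ofReal_mul, mul_inv_cancel₀ hx', RCLike.ofReal_one, one_smul]
  have hfy : f y = 1 := by
    rw [hy, map_smul, hfx, smul_eq_mul, ← RCLike.ofReal_mul, inv_mul_cancel₀ hx', RCLike.ofReal_one]
  have hf1 : ‖f‖ = 1 := by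
    refine le_antisymm hf ?_
    have := f.le_opNorm y
    rw [hfy, hy1, norm_one, mul_one] at this
    exact this
  have h1 := le_numRadius A hy1 hf1 hfy
  conv_lhs => rw [hxy]
  rw [diag_smul, map_smul, norm_smul, norm_pow, RCLike.norm_ofReal, abs_norm, mul_comm]
  exact mul_le_mul_of_nonneg_right h1 (by positivity)

lemma bddBelow_index : BddBelow {r : ℝ | ∃ A : ContinuousMultilinearMap 𝕜 (fun _ : Fin k => X) X,
    polyNorm A = 1 ∧ r = numRadius A} := by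
  refine ⟨0, ?_⟩
  rintro r ⟨A, -, rfl⟩
  exact numRadius_nonneg A

/-- The basic upper estimate for the index. -/
lemma polyIndex_le (A : ContinuousMultilinearMap 𝕜 (fun _ : Fin k => X) X) (hA : 0 < polyNorm A) :
    polyIndex 𝕜 X k ≤ numRadius A / polyNorm A := by
  set c : 𝕜 := (((polyNorm A)⁻¹ : ℝ) : 𝕜) with hc
  have hcn : ‖c‖ = (polyNorm A)⁻¹ := by
    rw [hc, RCLike.norm_ofReal, abs_of_pos (inv_pos.mpr hA)]
  have h1 : polyNorm (c • A) = 1 := by
    have : {r : ℝ | ∃ x : X, ‖x‖ = 1 ∧ r = ‖(c • A) (fun _ => x)‖}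
        = (polyNorm A)⁻¹ • {r : ℝ | ∃ x : X, ‖x‖ = 1 ∧ r = ‖A (fun _ => x)‖} := by
      ext r
      constructor
      · rintro ⟨x, hx, rfl⟩
        refine ⟨‖A (fun _ => x)‖, ⟨x, hx, rfl⟩, ?_⟩
        simp [norm_smul, hcn]
      · rintro ⟨s, ⟨x, hx, rfl⟩, rfl⟩
        refine ⟨x, hx, ?_⟩
        simp [norm_smul, hcn]
    unfold polyNorm at *
    rw [this, Real.sSup_smul_of_nonneg (inv_nonneg.mpr hA.le), smul_eq_mul]
    exact inv_mul_cancel₀ hA.ne'
  have h2 : numRadius (c • A) = numRadius A / polyNorm A := by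
    have : {r : ℝ | ∃ (x : X) (f : X →L[𝕜] 𝕜), ‖x‖ = 1 ∧ ‖f‖ = 1 ∧ f x = 1 ∧
          r = ‖f ((c • A) (fun _ => x))‖}
        = (polyNorm A)⁻¹ • {r : ℝ | ∃ (x : X) (f : X →L[𝕜] 𝕜), ‖x‖ = 1 ∧ ‖f‖ = 1 ∧ f x = 1 ∧
          r = ‖f (A (fun _ => x))‖} := by
      ext r
      constructor
      · rintro ⟨x, f, hx, hf, hfx, rfl⟩
        refine ⟨‖f (A (fun _ => x))‖, ⟨x, f, hx, hf, hfx, rfl⟩, ?_⟩
        simp [hcn]
      · rintro ⟨s, ⟨x, f, hx, hf, hfx, rfl⟩, rfl⟩
        refine ⟨x, f, hx, hf, hfx, ?_⟩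
        simp [hcn]
    unfold numRadius
    rw [this, Real.sSup_smul_of_nonneg (inv_nonneg.mpr hA.le), smul_eq_mul]
    rw [div_eq_inv_mul]
  exact csInf_le bddBelow_index ⟨c • A, h1, h2.symm⟩

lemma polyIndex_le' (A : ContinuousMultilinearMap 𝕜 (fun _ : Fin k => X) X) {V K : ℝ} (hK : 0 < K)
    {x₀ : X} (hx₀ : ‖x₀‖ = 1) (hKx : K ≤ ‖A (fun _ => x₀)‖)
    (hV : ∀ (x : X) (f : X →L[𝕜] 𝕜), ‖x‖ = 1 → ‖f‖ = 1 → f x = 1 → ‖f (A (fun _ => x))‖ ≤ V) :
    polyIndex 𝕜 X k ≤ V / K := by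
  have h1 : K ≤ polyNorm A := hKx.trans (le_polyNorm A hx₀)
  have hpos : 0 < polyNorm A := hK.trans_le h1
  have hV0 : 0 ≤ V := by
    obtain ⟨f, hf, hfx⟩ := exists_dual_vector 𝕜 x₀ (by rw [hx₀]; exact one_ne_zero)
    exact (norm_nonneg _).trans (hV x₀ f hx₀ hf (by rw [hfx, hx₀, RCLike.ofReal_one]))
  have h2 : numRadius A ≤ V := by
    apply Real.sSup_le _ hV0
    rintro r ⟨x, f, hx, hf, hfx, rfl⟩
    exact hV x f hx hf hfx
  calc polyIndex 𝕜 X k ≤ numRadius A / polyNorm A := polyIndex_le A hpos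
    _ ≤ V / K := div_le_div₀ hV0 h2 hK h1

/-- The polynomial `x ↦ φ x ^ k • v`. -/
noncomputable def rankOne (k : ℕ) (φ : X →L[𝕜] 𝕜) (v : X) :
    ContinuousMultilinearMap 𝕜 (fun _ : Fin k => X) X :=
  (ContinuousLinearMap.toSpanSingleton 𝕜 v).compContinuousMultilinearMap
    ((ContinuousMultilinearMap.mkPiAlgebra 𝕜 (Fin k) 𝕜).compContinuousLinearMap (fun _ => φ))

lemma rankOne_apply (φ : X →L[𝕜] 𝕜) (v x : X) :
    rankOne k φ v (fun _ => x) = φ x ^ k • v := by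
  simp [rankOne, ContinuousLinearMap.toSpanSingleton_apply]

lemma numRadius_le_polyNorm (A : ContinuousMultilinearMap 𝕜 (fun _ : Fin k => X) X) :
    numRadius A ≤ polyNorm A := by
  apply Real.sSup_le _ (polyNorm_nonneg A)
  rintro r ⟨x, f, hx, hf, hfx, rfl⟩
  have h2 := f.le_opNorm (A (fun _ => x))
  rw [hf, one_mul] at h2
  exact h2.trans (le_polyNorm A hx)

lemma exists_unit (𝕜 : Type) [RCLike 𝕜] (X : Type u) [NormedAddCommGroup X] [NormedSpace 𝕜 X]
    [Nontrivial X] : ∃ x : X, ‖x‖ = 1 := by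
  obtain ⟨y, hy⟩ := exists_ne (0 : X)
  exact ⟨((‖y‖⁻¹ : ℝ) : 𝕜) • y, by
    rw [norm_smul, RCLike.norm_ofReal, abs_of_nonneg (inv_nonneg.mpr (norm_nonneg _)),
      inv_mul_cancel₀ (norm_ne_zero_iff.mpr hy)]⟩

variable (𝕜 X) in
lemma exists_polyNorm_eq_one [Nontrivial X] (k : ℕ) :
    ∃ A : ContinuousMultilinearMap 𝕜 (fun _ : Fin k => X) X, polyNorm A = 1 := by
  obtain ⟨x₀, hx₀⟩ := exists_unit 𝕜 X
  obtain ⟨φ, hφ, hφx⟩ := exists_dual_vector 𝕜 x₀ (by rw [hx₀]; exact one_ne_zero)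
  rw [hx₀, RCLike.ofReal_one] at hφx
  refine ⟨rankOne k φ x₀, le_antisymm ?_ ?_⟩
  · apply Real.sSup_le _ zero_le_one
    rintro r ⟨x, hx, rfl⟩
    rw [rankOne_apply, norm_smul, hx₀, mul_one, norm_pow]
    have := φ.le_opNorm x
    rw [hφ, hx, mul_one] at this
    exact pow_le_one₀ (norm_nonneg _) this
  · have := le_polyNorm (rankOne k φ x₀) hx₀
    rwa [rankOne_apply, hφx, one_pow, one_smul, hx₀] at this

lemma polyIndex_le_one [Nontrivial X] : polyIndex 𝕜 X k ≤ 1 := by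
  obtain ⟨A, hA⟩ := exists_polyNorm_eq_one 𝕜 X k
  have h1 := polyIndex_le A (by rw [hA]; exact one_pos)
  have h2 := numRadius_le_polyNorm A
  rw [hA] at h1 h2
  simpa using h1.trans (by simpa using h2)

lemma le_polyIndex [Nontrivial X] {c : ℝ}
    (h : ∀ A : ContinuousMultilinearMap 𝕜 (fun _ : Fin k => X) X, polyNorm A = 1 → c ≤ numRadius A) :
    c ≤ polyIndex 𝕜 X k := by
  obtain ⟨A, hA⟩ := exists_polyNorm_eq_one 𝕜 X k
  refine le_csInf ⟨_, A, hA, rfl⟩ ?_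
  rintro r ⟨B, hB, rfl⟩
  exact h B hB

/-- Perturbation estimate for the index. -/
lemma perturb {Y : Type v} [NormedAddCommGroup Y] [NormedSpace 𝕜 Y] [Nontrivial X]
    (hk : k ≠ 0) (T : X ≃L[𝕜] Y) {q δ : ℝ} (hq : 0 < q) (hδ : 0 ≤ δ)
    (h1 : ∀ x, ‖T x‖ ≤ q * ‖x‖) (h2 : ∀ x, ‖x‖ ≤ q * ‖T x‖)
    (h3 : ∀ (x : X) (g : Y →L[𝕜] 𝕜), x ≠ 0 → ‖g‖ = 1 → g (T x) = (‖T x‖ : 𝕜) →
      ∃ f : X →L[𝕜] 𝕜, ‖f‖ ≤ 1 ∧ f x = (‖x‖ : 𝕜) ∧ ∀ z, ‖g (T z) - f z‖ ≤ δ * ‖z‖) :
    polyIndex 𝕜 Y k ≤ q ^ (2 * k + 1) * (polyIndex 𝕜 X k + δ) := by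
  have hqp : 0 < q ^ (2 * k + 1) := by positivity
  -- it is enough to bound for each `A`
  suffices h : ∀ A : ContinuousMultilinearMap 𝕜 (fun _ : Fin k => X) X, polyNorm A = 1 →
      polyIndex 𝕜 Y k / q ^ (2 * k + 1) - δ ≤ numRadius A by
    have := le_polyIndex h
    rw [sub_le_iff_le_add, div_le_iff₀ hqp, mul_comm] at this
    exact this
  intro A hA
  rw [sub_le_iff_le_add, div_le_iff₀ hqp]
  set B : ContinuousMultilinearMap 𝕜 (fun _ : Fin k => Y) Y :=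
    (T : X →L[𝕜] Y).compContinuousMultilinearMap
      (A.compContinuousLinearMap (fun _ => (T.symm : Y →L[𝕜] X))) with hB
  have hBapp : ∀ y : Y, B (fun _ => y) = T (A (fun _ => T.symm y)) := by
    intro y
    simp [hB]
  -- numerical radius of B
  have hV : ∀ (y : Y) (g : Y →L[𝕜] 𝕜), ‖y‖ = 1 → ‖g‖ = 1 → g y = 1 →
      ‖g (B (fun _ => y))‖ ≤ q ^ k * (numRadius A + δ) := by
    intro y g hy hg hgy
    set x : X := T.symm y with hx
    have hTx : T x = y := by rw [hx, ContinuousLinearEquiv.apply_symm_apply]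
    have hx0 : x ≠ 0 := by
      intro h
      rw [h, map_zero] at hTx
      rw [← hTx, norm_zero] at hy
      exact zero_ne_one hy
    obtain ⟨f, hf, hfx, hfg⟩ := h3 x g hx0 hg (by rw [hTx, hgy, hy, RCLike.ofReal_one])
    have e1 : g (B (fun _ => y)) = f (A (fun _ => x)) + (g (T (A (fun _ => x))) - f (A (fun _ => x))) := by
      rw [hBapp]; ring
    have e2 := num_le A hx0 hf hfx
    have e3 := hfg (A (fun _ => x))
    have e4 := diag_le hk A x
    rw [hA, one_mul] at e4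
    have e5 : ‖x‖ ≤ q := by
      have := h2 x
      rwa [hTx, hy, mul_one] at this
    have e6 : ‖x‖ ^ k ≤ q ^ k := pow_le_pow_left₀ (norm_nonneg _) e5 k
    calc ‖g (B (fun _ => y))‖ ≤ ‖f (A (fun _ => x))‖ + ‖g (T (A (fun _ => x))) - f (A (fun _ => x))‖ := by
          rw [e1]; exact norm_add_le _ _
      _ ≤ numRadius A * ‖x‖ ^ k + δ * ‖x‖ ^ k := by
          refine add_le_add e2 (e3.trans (mul_le_mul_of_nonneg_left e4 hδ))
      _ = (numRadius A + δ) * ‖x‖ ^ k := by ring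
      _ ≤ (numRadius A + δ) * q ^ k :=
          mul_le_mul_of_nonneg_left e6 (add_nonneg (numRadius_nonneg A) hδ)
      _ = q ^ k * (numRadius A + δ) := by ring
  -- lower bound for the norm of B
  have hlim : ∀ c : ℝ, c < 1 → 0 < c → polyIndex 𝕜 Y k ≤ (numRadius A + δ) * q ^ (2 * k + 1) / c := by
    intro c hc hc0
    obtain ⟨r, ⟨x, hx, rfl⟩, hr⟩ := exists_lt_of_lt_csSup (s := {r : ℝ | ∃ x : X, ‖x‖ = 1 ∧ r = ‖A (fun _ => x)‖})
      (by
        obtain ⟨x₀, hx₀⟩ := exists_unit 𝕜 X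
        exact ⟨_, x₀, hx₀, rfl⟩) (b := c) (by
        have : sSup {r : ℝ | ∃ x : X, ‖x‖ = 1 ∧ r = ‖A (fun _ => x)‖} = 1 := hA
        rw [this]; exact hc)
    have hx0 : x ≠ 0 := by
      intro h
      rw [h, norm_zero] at hx
      exact zero_ne_one hx
    have hTx0 : 0 < ‖T x‖ := by
      rw [norm_pos_iff]
      intro h
      exact hx0 ((map_eq_zero_iff T T.injective).mp h)
    set y : Y := ((‖T x‖⁻¹ : ℝ) : 𝕜) • T x with hy
    have hy1 : ‖y‖ = 1 := by
      rw [hy, norm_smul, RCLike.norm_ofReal, abs_of_nonneg (inv_nonneg.mpr (norm_nonneg _)),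
        inv_mul_cancel₀ hTx0.ne']
    have hBy : ‖B (fun _ => y)‖ = ‖T (A (fun _ => x))‖ / ‖T x‖ ^ k := by
      rw [hy, diag_smul, norm_smul, norm_pow, RCLike.norm_ofReal,
        abs_of_nonneg (inv_nonneg.mpr (norm_nonneg _)), hBapp, ContinuousLinearEquiv.symm_apply_apply,
        inv_pow]
      field_simp
    have hlow : c / q ^ (k + 1) ≤ ‖B (fun _ => y)‖ := by
      rw [hBy, div_le_div_iff₀ (by positivity) (by positivity)]
      have e1 : ‖A (fun _ => x)‖ ≤ q * ‖T (A (fun _ => x))‖ := h2 _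
      have e2 : ‖T x‖ ≤ q := by
        have := h1 x
        rwa [hx, mul_one] at this
      have e3 : ‖T x‖ ^ k ≤ q ^ k := pow_le_pow_left₀ (norm_nonneg _) e2 k
      calc c * ‖T x‖ ^ k ≤ (q * ‖T (A (fun _ => x))‖) * q ^ k := by
            apply mul_le_mul (hr.le.trans e1) e3 (by positivity) (by positivity)
        _ = ‖T (A (fun _ => x))‖ * q ^ (k + 1) := by ring
    have := polyIndex_le' B (K := c / q ^ (k + 1)) (by positivity) hy1 hlow hV
    refine this.trans (le_of_eq ?_)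
    rw [div_div_eq_mul_div]
    congr 1
    ring
  -- let c → 1
  have hcont : Filter.Tendsto (fun c : ℝ => (numRadius A + δ) * q ^ (2 * k + 1) / c)
      (𝓝[<] 1) (𝓝 ((numRadius A + δ) * q ^ (2 * k + 1) / 1)) := by
    apply tendsto_nhdsWithin_of_tendsto_nhds
    exact (continuousAt_const.div continuousAt_id (by norm_num)).tendsto
  rw [div_one] at hcont
  refine ge_of_tendsto hcont ?_
  have : Set.Ioo (0 : ℝ) 1 ∈ 𝓝[<] (1 : ℝ) := Ioo_mem_nhdsLT one_pos
  filter_upwards [this] with c hc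
  exact hlim c hc.2 hc.1

end basic

/-- Isometric invariance. -/
lemma polyIndex_congr {𝕜 : Type} [RCLike 𝕜] {X : Type u} [NormedAddCommGroup X] [NormedSpace 𝕜 X]
    {Y : Type v} [NormedAddCommGroup Y] [NormedSpace 𝕜 Y] [Nontrivial X] {k : ℕ}
    (hk : k ≠ 0) (T : X ≃ₗᵢ[𝕜] Y) : polyIndex 𝕜 X k = polyIndex 𝕜 Y k := by
  have : Nontrivial Y := T.symm.toLinearEquiv.toEquiv.nontrivial
  apply le_antisymm
  · have := perturb (X := Y) (Y := X) (k := k) hk T.symm.toContinuousLinearEquiv (q := 1) (δ := 0)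
      one_pos le_rfl (fun x => by simp) (fun x => by simp) (by
        intro x g hx hg hgx
        refine ⟨g.comp (T.symm.toContinuousLinearEquiv : Y →L[𝕜] X), ?_, ?_, ?_⟩
        · refine ContinuousLinearMap.opNorm_le_bound _ zero_le_one ?_
          intro z
          have := g.le_opNorm (T.symm z)
          rw [hg, LinearIsometryEquiv.norm_map] at this
          simpa using this
        · simpa using hgx
        · intro z
          simp)
    simpa using this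
  · have := perturb (X := X) (Y := Y) (k := k) hk T.toContinuousLinearEquiv (q := 1) (δ := 0)
      one_pos le_rfl (fun x => by simp) (fun x => by simp) (by
        intro x g hx hg hgx
        refine ⟨g.comp (T.toContinuousLinearEquiv : X →L[𝕜] Y), ?_, ?_, ?_⟩
        · refine ContinuousLinearMap.opNorm_le_bound _ zero_le_one ?_
          intro z
          have := g.le_opNorm (T z)
          rw [hg, LinearIsometryEquiv.norm_map] at this
          simpa using this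
        · simpa using hgx
        · intro z
          simp)
    simpa using this

section path

variable {𝕜 : Type} [RCLike 𝕜] {E : Type} [AddCommGroup E] [Module 𝕜 E]
  {Z0 Z1 : Type} [NormedAddCommGroup Z0] [NormedSpace 𝕜 Z0] [NormedAddCommGroup Z1]
  [NormedSpace 𝕜 Z1] (j0 : E →ₗ[𝕜] Z0) (j1 : E →ₗ[𝕜] Z1)

/-- The map `e ↦ ((1 - s) j0 e, s j1 e)` into the `ℓ₁`-sum. -/
noncomputable def iota (s : ℝ) : E →ₗ[𝕜] WithLp 1 (Z0 × Z1) :=
  (WithLp.linearEquiv 1 𝕜 (Z0 × Z1)).symm.toLinearMap ∘ₗ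
    ((((1 - s : ℝ) : 𝕜) • j0).prod (((s : ℝ) : 𝕜) • j1))

lemma iota_apply (s : ℝ) (e : E) : iota j0 j1 s e =
    WithLp.toLp 1 (((1 - s : ℝ) : 𝕜) • j0 e, ((s : ℝ) : 𝕜) • j1 e) := rfl

lemma norm_iota {s : ℝ} (hs : s ∈ Set.Icc (0 : ℝ) 1) (e : E) :
    ‖iota j0 j1 s e‖ = (1 - s) * ‖j0 e‖ + s * ‖j1 e‖ := by
  rw [iota_apply, WithLp.prod_norm_eq_of_L1]
  simp only [WithLp.toLp_fst, WithLp.toLp_snd, norm_smul, RCLike.norm_ofReal]
  rw [abs_of_nonneg (by linarith [hs.2] : (0 : ℝ) ≤ 1 - s), abs_of_nonneg hs.1]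

variable (h0 : Function.Injective j0) (h1 : Function.Injective j1)
include h0 h1

lemma iota_inj {s : ℝ} (hs : s ∈ Set.Icc (0 : ℝ) 1) : Function.Injective (iota j0 j1 s) := by
  rw [injective_iff_map_eq_zero]
  intro e he
  have h := norm_iota j0 j1 hs e
  rw [he, norm_zero] at h
  have e1 : 0 ≤ ‖j0 e‖ := norm_nonneg _
  have e2 : 0 ≤ ‖j1 e‖ := norm_nonneg _
  rcases lt_or_ge s 1 with hs1 | hs1
  · have : ‖j0 e‖ = 0 := by
      have h3 : 0 ≤ s * ‖j1 e‖ := mul_nonneg hs.1 e2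
      have h4 : (1 - s) * ‖j0 e‖ ≤ 0 := by linarith
      nlinarith
    rw [norm_eq_zero] at this
    exact (injective_iff_map_eq_zero j0).mp h0 e this
  · have hs' : s = 1 := le_antisymm hs.2 hs1
    subst hs'
    have : ‖j1 e‖ = 0 := by linarith
    rw [norm_eq_zero] at this
    exact (injective_iff_map_eq_zero j1).mp h1 e this

/-- The identification of `E` with the range of `iota`. -/
noncomputable def eqv {s : ℝ} (hs : s ∈ Set.Icc (0 : ℝ) 1) :
    E ≃ₗ[𝕜] LinearMap.range (iota j0 j1 s) :=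
  LinearEquiv.ofInjective (iota j0 j1 s) (iota_inj j0 j1 h0 h1 hs)

lemma norm_eqv {s : ℝ} (hs : s ∈ Set.Icc (0 : ℝ) 1) (e : E) :
    ‖eqv j0 j1 h0 h1 hs e‖ = (1 - s) * ‖j0 e‖ + s * ‖j1 e‖ :=
  norm_iota j0 j1 hs e

omit h0 h1 [NormedAddCommGroup Z0] [NormedSpace 𝕜 Z0] [NormedAddCommGroup Z1] [NormedSpace 𝕜 Z1] [AddCommGroup E] [Module 𝕜 E] in
lemma eq_of_conv {a b : 𝕜} {α β s : ℝ} (ha : ‖a‖ ≤ α) (hb : ‖b‖ ≤ β) (hs0 : 0 < s) (hs1 : s < 1)
    (h : ((1 - s : ℝ) : 𝕜) * a + (s : 𝕜) * b = (((1 - s) * α + s * β : ℝ) : 𝕜)) :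
    a = (α : 𝕜) ∧ b = (β : 𝕜) := by
  have h2 := congrArg RCLike.re h
  rw [map_add, RCLike.re_ofReal_mul, RCLike.re_ofReal_mul, RCLike.ofReal_re] at h2
  have e1 : RCLike.re a ≤ α := (RCLike.re_le_norm a).trans ha
  have e2 : RCLike.re b ≤ β := (RCLike.re_le_norm b).trans hb
  have e3 : RCLike.re a = α := by nlinarith
  have e4 : RCLike.re b = β := by nlinarith
  constructor
  · rw [← e3]
    exact (RCLike.re_eq_self_of_le (by rw [e3]; exact ha)).symm
  · rw [← e4]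
    exact (RCLike.re_eq_self_of_le (by rw [e4]; exact hb)).symm

lemma split {s : ℝ} (hs : s ∈ Set.Icc (0 : ℝ) 1)
    (g : LinearMap.range (iota j0 j1 s) →L[𝕜] 𝕜) (hg : ‖g‖ = 1) (e : E)
    (hge : g (eqv j0 j1 h0 h1 hs e) = ((‖eqv j0 j1 h0 h1 hs e‖ : ℝ) : 𝕜)) :
    ∃ (g0 : Z0 →L[𝕜] 𝕜) (g1 : Z1 →L[𝕜] 𝕜), ‖g0‖ ≤ 1 ∧ ‖g1‖ ≤ 1 ∧ g0 (j0 e) = (‖j0 e‖ : 𝕜) ∧
      g1 (j1 e) = (‖j1 e‖ : 𝕜) ∧ ∀ e', g (eqv j0 j1 h0 h1 hs e') =
        ((1 - s : ℝ) : 𝕜) * g0 (j0 e') + (s : 𝕜) * g1 (j1 e') := by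
  obtain ⟨G, hG, hGn⟩ := exists_extension_norm_eq (LinearMap.range (iota j0 j1 s)) g
  rw [hg] at hGn
  let P := (WithLp.prodContinuousLinearEquiv 1 𝕜 Z0 Z1).symm
  let G0 : Z0 →L[𝕜] 𝕜 := (G.comp (P : (Z0 × Z1) →L[𝕜] WithLp 1 (Z0 × Z1))).comp
    (ContinuousLinearMap.inl 𝕜 Z0 Z1)
  let G1 : Z1 →L[𝕜] 𝕜 := (G.comp (P : (Z0 × Z1) →L[𝕜] WithLp 1 (Z0 × Z1))).comp
    (ContinuousLinearMap.inr 𝕜 Z0 Z1)
  have hG0 : ‖G0‖ ≤ 1 := by
    refine ContinuousLinearMap.opNorm_le_bound _ zero_le_one (fun z => ?_)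
    have := G.le_opNorm (WithLp.toLp 1 (z, (0 : Z1)))
    rw [hGn, WithLp.prod_norm_eq_of_L1] at this
    change ‖G (WithLp.toLp 1 (z, (0 : Z1)))‖ ≤ _
    simpa using this
  have hG1 : ‖G1‖ ≤ 1 := by
    refine ContinuousLinearMap.opNorm_le_bound _ zero_le_one (fun z => ?_)
    have := G.le_opNorm (WithLp.toLp 1 ((0 : Z0), z))
    rw [hGn, WithLp.prod_norm_eq_of_L1] at this
    change ‖G (WithLp.toLp 1 ((0 : Z0), z))‖ ≤ _
    simpa using this
  have hsum : ∀ e', g (eqv j0 j1 h0 h1 hs e') =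
      ((1 - s : ℝ) : 𝕜) * G0 (j0 e') + (s : 𝕜) * G1 (j1 e') := by
    intro e'
    rw [← hG]
    have e1 : ((eqv j0 j1 h0 h1 hs e' : LinearMap.range (iota j0 j1 s)) : WithLp 1 (Z0 × Z1))
        = ((1 - s : ℝ) : 𝕜) • WithLp.toLp 1 (j0 e', (0 : Z1))
          + (s : 𝕜) • WithLp.toLp 1 ((0 : Z0), j1 e') := by
      change iota j0 j1 s e' = _
      rw [iota_apply, ← WithLp.toLp_smul, ← WithLp.toLp_smul, ← WithLp.toLp_add]
      simp
    rw [e1, map_add, map_smul, map_smul]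
    rfl
  have b0 : ‖G0 (j0 e)‖ ≤ ‖j0 e‖ := by
    have := G0.le_opNorm (j0 e)
    exact this.trans (by simpa using mul_le_mul_of_nonneg_right hG0 (norm_nonneg (j0 e)))
  have b1 : ‖G1 (j1 e)‖ ≤ ‖j1 e‖ := by
    have := G1.le_opNorm (j1 e)
    exact this.trans (by simpa using mul_le_mul_of_nonneg_right hG1 (norm_nonneg (j1 e)))
  have hkey : ((1 - s : ℝ) : 𝕜) * G0 (j0 e) + (s : 𝕜) * G1 (j1 e)
      = (((1 - s) * ‖j0 e‖ + s * ‖j1 e‖ : ℝ) : 𝕜) := by
    rw [← hsum e, hge, norm_eqv]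
  rcases eq_or_lt_of_le hs.1 with hs0 | hs0
  · -- s = 0
    obtain ⟨g1, hg1, hg1e⟩ := exists_dual_vector'' 𝕜 (j1 e)
    subst hs0
    refine ⟨G0, g1, hG0, hg1, ?_, hg1e, ?_⟩
    · simpa using hkey
    · intro e'
      rw [hsum e']
      simp
  rcases eq_or_lt_of_le hs.2 with hs1 | hs1
  · -- s = 1
    obtain ⟨g0, hg0, hg0e⟩ := exists_dual_vector'' 𝕜 (j0 e)
    subst hs1
    refine ⟨g0, G1, hg0, hG1, hg0e, ?_, ?_⟩
    · simpa using hkey
    · intro e'
      rw [hsum e']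
      simp
  · obtain ⟨c0, c1⟩ := eq_of_conv b0 b1 hs0 hs1 hkey
    exact ⟨G0, G1, hG0, hG1, c0, c1, hsum⟩

variable [FiniteDimensional 𝕜 E] [Nontrivial E]

omit [Nontrivial E] in
lemma exists_comparison : ∃ M : ℝ, 1 ≤ M ∧ ∀ e, ‖j0 e‖ ≤ M * ‖j1 e‖ ∧ ‖j1 e‖ ≤ M * ‖j0 e‖ := by
  let f0 := LinearEquiv.ofInjective j0 h0
  let f1 := LinearEquiv.ofInjective j1 h1
  have fd0 : FiniteDimensional 𝕜 (LinearMap.range j0) := f0.finiteDimensional
  have fd1 : FiniteDimensional 𝕜 (LinearMap.range j1) := f1.finiteDimensional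
  let L := (f0.symm.trans f1).toContinuousLinearEquiv
  have hL : ∀ e, L (f0 e) = f1 e := by
    intro e
    change (f0.symm.trans f1) (f0 e) = f1 e
    simp
  have hL' : ∀ e, L.symm (f1 e) = f0 e := by
    intro e
    rw [← hL, ContinuousLinearEquiv.symm_apply_apply]
  refine ⟨max 1 (max ‖(L : LinearMap.range j0 →L[𝕜] LinearMap.range j1)‖
    ‖(L.symm : LinearMap.range j1 →L[𝕜] LinearMap.range j0)‖), le_max_left _ _, ?_⟩
  intro e
  constructor
  · have := (L.symm : LinearMap.range j1 →L[𝕜] LinearMap.range j0).le_opNorm (f1 e)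
    have e1 : ‖(L.symm : LinearMap.range j1 →L[𝕜] LinearMap.range j0) (f1 e)‖ = ‖j0 e‖ := by
      change ‖L.symm (f1 e)‖ = _
      rw [hL']; rfl
    have e2 : ‖f1 e‖ = ‖j1 e‖ := rfl
    rw [e1, e2] at this
    refine this.trans (mul_le_mul_of_nonneg_right ?_ (norm_nonneg _))
    exact (le_max_right _ _).trans (le_max_right _ _)
  · have := (L : LinearMap.range j0 →L[𝕜] LinearMap.range j1).le_opNorm (f0 e)
    have e1 : ‖(L : LinearMap.range j0 →L[𝕜] LinearMap.range j1) (f0 e)‖ = ‖j1 e‖ := by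
      change ‖L (f0 e)‖ = _
      rw [hL]; rfl
    have e2 : ‖f0 e‖ = ‖j0 e‖ := rfl
    rw [e1, e2] at this
    refine this.trans (mul_le_mul_of_nonneg_right ?_ (norm_nonneg _))
    exact (le_max_left _ _).trans (le_max_right _ _)

lemma key_ineq {k : ℕ} (hk : k ≠ 0) {M : ℝ} (hM : 1 ≤ M)
    (hcomp : ∀ e, ‖j0 e‖ ≤ M * ‖j1 e‖ ∧ ‖j1 e‖ ≤ M * ‖j0 e‖) {s t : ℝ}
    (hs : s ∈ Set.Icc (0 : ℝ) 1) (ht : t ∈ Set.Icc (0 : ℝ) 1) :
    polyIndex 𝕜 (LinearMap.range (iota j0 j1 s)) k ≤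
      (1 + M * |s - t|) ^ (2 * k + 1) *
        (polyIndex 𝕜 (LinearMap.range (iota j0 j1 t)) k + 2 * M * |s - t|) := by
  let es := eqv j0 j1 h0 h1 hs
  let et := eqv j0 j1 h0 h1 ht
  have fds : FiniteDimensional 𝕜 (LinearMap.range (iota j0 j1 s)) := es.finiteDimensional
  have fdt : FiniteDimensional 𝕜 (LinearMap.range (iota j0 j1 t)) := et.finiteDimensional
  have nt : Nontrivial (LinearMap.range (iota j0 j1 t)) := et.toEquiv.symm.nontrivial
  let T := (et.symm.trans es).toContinuousLinearEquiv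
  have hT : ∀ e, T (et e) = es e := by
    intro e
    change (et.symm.trans es) (et e) = es e
    simp
  have nrm : ∀ (r : ℝ) (hr : r ∈ Set.Icc (0 : ℝ) 1) (e : E),
      ‖j0 e‖ ≤ M * ‖eqv j0 j1 h0 h1 hr e‖ ∧ ‖j1 e‖ ≤ M * ‖eqv j0 j1 h0 h1 hr e‖ := by
    intro r hr e
    rw [norm_eqv]
    obtain ⟨c1, c2⟩ := hcomp e
    have p0 := norm_nonneg (j0 e)
    have p1 := norm_nonneg (j1 e)
    have q0 : ‖j0 e‖ ≤ M * ‖j0 e‖ := by nlinarith
    have q1 : ‖j1 e‖ ≤ M * ‖j1 e‖ := by nlinarith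
    have r0 : 0 ≤ 1 - r := by linarith [hr.2]
    have r1 : 0 ≤ r := hr.1
    constructor
    · calc ‖j0 e‖ = (1 - r) * ‖j0 e‖ + r * ‖j0 e‖ := by ring
        _ ≤ (1 - r) * (M * ‖j0 e‖) + r * (M * ‖j1 e‖) :=
            add_le_add (mul_le_mul_of_nonneg_left q0 r0) (mul_le_mul_of_nonneg_left c1 r1)
        _ = M * ((1 - r) * ‖j0 e‖ + r * ‖j1 e‖) := by ring
    · calc ‖j1 e‖ = (1 - r) * ‖j1 e‖ + r * ‖j1 e‖ := by ring
        _ ≤ (1 - r) * (M * ‖j0 e‖) + r * (M * ‖j1 e‖) :=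
            add_le_add (mul_le_mul_of_nonneg_left c2 r0) (mul_le_mul_of_nonneg_left q1 r1)
        _ = M * ((1 - r) * ‖j0 e‖ + r * ‖j1 e‖) := by ring
  have dif : ∀ (r r' : ℝ) (hr : r ∈ Set.Icc (0 : ℝ) 1) (hr' : r' ∈ Set.Icc (0 : ℝ) 1) (e : E),
      ‖eqv j0 j1 h0 h1 hr e‖ ≤ (1 + M * |r - r'|) * ‖eqv j0 j1 h0 h1 hr' e‖ := by
    intro r r' hr hr' e
    obtain ⟨c0, c1⟩ := nrm r' hr' e
    have p0 := norm_nonneg (j0 e)
    have p1 := norm_nonneg (j1 e)
    have : ‖eqv j0 j1 h0 h1 hr e‖ - ‖eqv j0 j1 h0 h1 hr' e‖ = (r - r') * (‖j1 e‖ - ‖j0 e‖) := by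
      rw [norm_eqv, norm_eqv]; ring
    have h3 : |‖j1 e‖ - ‖j0 e‖| ≤ M * ‖eqv j0 j1 h0 h1 hr' e‖ := by
      rw [abs_le]
      constructor <;> linarith
    have h4 : (r - r') * (‖j1 e‖ - ‖j0 e‖) ≤ |r - r'| * (M * ‖eqv j0 j1 h0 h1 hr' e‖) := by
      calc (r - r') * (‖j1 e‖ - ‖j0 e‖) ≤ |(r - r') * (‖j1 e‖ - ‖j0 e‖)| := le_abs_self _
        _ = |r - r'| * |‖j1 e‖ - ‖j0 e‖| := abs_mul _ _
        _ ≤ _ := mul_le_mul_of_nonneg_left h3 (abs_nonneg _)
    linarith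
  have hq : 0 < 1 + M * |s - t| := by positivity
  refine perturb hk T hq (by positivity) ?_ ?_ ?_
  · intro x
    obtain ⟨e, rfl⟩ := et.surjective x
    rw [hT]
    exact dif s t hs ht e
  · intro x
    obtain ⟨e, rfl⟩ := et.surjective x
    rw [hT, abs_sub_comm]
    exact dif t s ht hs e
  · intro x g hx hg hgx
    obtain ⟨e, rfl⟩ := et.surjective x
    rw [hT] at hgx
    obtain ⟨g0, g1, hg0, hg1, he0, he1, hsum⟩ := split j0 j1 h0 h1 hs g hg e hgx
    let F : WithLp 1 (Z0 × Z1) →L[𝕜] 𝕜 :=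
      (g0.coprod g1).comp (WithLp.prodContinuousLinearEquiv 1 𝕜 Z0 Z1 : WithLp 1 (Z0 × Z1) →L[𝕜] Z0 × Z1)
    have hF : ∀ z : WithLp 1 (Z0 × Z1), F z = g0 z.fst + g1 z.snd := fun z => rfl
    let f : LinearMap.range (iota j0 j1 t) →L[𝕜] 𝕜 :=
      F.comp (LinearMap.range (iota j0 j1 t)).subtypeL
    have hf : ∀ e', f (et e') = ((1 - t : ℝ) : 𝕜) * g0 (j0 e') + (t : 𝕜) * g1 (j1 e') := by
      intro e'
      change F (iota j0 j1 t e') = _
      rw [hF, iota_apply]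
      simp
    refine ⟨f, ?_, ?_, ?_⟩
    · refine ContinuousLinearMap.opNorm_le_bound _ zero_le_one (fun z => ?_)
      change ‖F (z : WithLp 1 (Z0 × Z1))‖ ≤ 1 * ‖(z : WithLp 1 (Z0 × Z1))‖
      rw [hF, WithLp.prod_norm_eq_of_L1, one_mul]
      refine (norm_add_le _ _).trans (add_le_add ?_ ?_)
      · exact (g0.le_opNorm _).trans (by
          simpa using mul_le_mul_of_nonneg_right hg0 (norm_nonneg (z : WithLp 1 (Z0 × Z1)).fst))
      · exact (g1.le_opNorm _).trans (by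
          simpa using mul_le_mul_of_nonneg_right hg1 (norm_nonneg (z : WithLp 1 (Z0 × Z1)).snd))
    · have hn : ‖et e‖ = (1 - t) * ‖j0 e‖ + t * ‖j1 e‖ := norm_eqv j0 j1 h0 h1 ht e
      rw [hf e, he0, he1, hn]
      push_cast
      ring
    · intro z
      obtain ⟨e', rfl⟩ := et.surjective z
      rw [hT, hf e']
      have hse : g (es e') = ((1 - s : ℝ) : 𝕜) * g0 (j0 e') + (s : 𝕜) * g1 (j1 e') := hsum e'
      rw [hse]
      have e1 : ((1 - s : ℝ) : 𝕜) * g0 (j0 e') + (s : 𝕜) * g1 (j1 e')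
          - (((1 - t : ℝ) : 𝕜) * g0 (j0 e') + (t : 𝕜) * g1 (j1 e'))
          = ((s - t : ℝ) : 𝕜) * (g1 (j1 e') - g0 (j0 e')) := by
        push_cast
        ring
      rw [e1, norm_mul, RCLike.norm_ofReal]
      obtain ⟨c0, c1⟩ := nrm t ht e'
      have b0 : ‖g0 (j0 e')‖ ≤ ‖j0 e'‖ := (g0.le_opNorm _).trans (by
          simpa using mul_le_mul_of_nonneg_right hg0 (norm_nonneg (j0 e')))
      have b1 : ‖g1 (j1 e')‖ ≤ ‖j1 e'‖ := (g1.le_opNorm _).trans (by
          simpa using mul_le_mul_of_nonneg_right hg1 (norm_nonneg (j1 e')))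
      have b2 : ‖g1 (j1 e') - g0 (j0 e')‖ ≤ 2 * M * ‖et e'‖ := by
        refine (norm_sub_le _ _).trans ?_
        have c0' : ‖j0 e'‖ ≤ M * ‖et e'‖ := c0
        have c1' : ‖j1 e'‖ ≤ M * ‖et e'‖ := c1
        linarith
      calc |s - t| * ‖g1 (j1 e') - g0 (j0 e')‖ ≤ |s - t| * (2 * M * ‖et e'‖) :=
            mul_le_mul_of_nonneg_left b2 (abs_nonneg _)
        _ = 2 * M * |s - t| * ‖et e'‖ := by ring

lemma continuousOn_index {k : ℕ} (hk : k ≠ 0) :
    ContinuousOn (fun s => polyIndex 𝕜 (LinearMap.range (iota j0 j1 s)) k) (Set.Icc (0 : ℝ) 1) := by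
  obtain ⟨M, hM, hcomp⟩ := exists_comparison j0 j1 h0 h1
  intro t ht
  have hab : Filter.Tendsto (fun s : ℝ => |s - t|) (𝓝[Set.Icc (0 : ℝ) 1] t) (𝓝 0) := by
    apply tendsto_nhdsWithin_of_tendsto_nhds
    have : Continuous (fun s : ℝ => |s - t|) := by fun_prop
    have := this.tendsto t
    simpa using this
  have hup : Filter.Tendsto (fun s : ℝ => (1 + M * |s - t|) ^ (2 * k + 1) *
        (polyIndex 𝕜 (LinearMap.range (iota j0 j1 t)) k + 2 * M * |s - t|))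
        (𝓝[Set.Icc (0 : ℝ) 1] t) (𝓝 (polyIndex 𝕜 (LinearMap.range (iota j0 j1 t)) k)) := by
    have h1' : Filter.Tendsto (fun s : ℝ => (1 + M * |s - t|) ^ (2 * k + 1))
        (𝓝[Set.Icc (0 : ℝ) 1] t) (𝓝 ((1 + M * 0) ^ (2 * k + 1))) :=
      (tendsto_const_nhds.add (hab.const_mul M)).pow _
    have h2' : Filter.Tendsto (fun s : ℝ => (polyIndex 𝕜 (LinearMap.range (iota j0 j1 t)) k + 2 * M * |s - t|))
        (𝓝[Set.Icc (0 : ℝ) 1] t) (𝓝 (polyIndex 𝕜 (LinearMap.range (iota j0 j1 t)) k + 2 * M * 0)) :=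
      tendsto_const_nhds.add (hab.const_mul (2 * M))
    have := h1'.mul h2'
    simpa using this
  have hlo : Filter.Tendsto (fun s : ℝ => polyIndex 𝕜 (LinearMap.range (iota j0 j1 t)) k /
        (1 + M * |s - t|) ^ (2 * k + 1) - 2 * M * |s - t|)
        (𝓝[Set.Icc (0 : ℝ) 1] t) (𝓝 (polyIndex 𝕜 (LinearMap.range (iota j0 j1 t)) k)) := by
    have h1' : Filter.Tendsto (fun s : ℝ => (1 + M * |s - t|) ^ (2 * k + 1))
        (𝓝[Set.Icc (0 : ℝ) 1] t) (𝓝 ((1 + M * 0) ^ (2 * k + 1))) :=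
      (tendsto_const_nhds.add (hab.const_mul M)).pow _
    have h2' : Filter.Tendsto (fun s : ℝ => polyIndex 𝕜 (LinearMap.range (iota j0 j1 t)) k /
        (1 + M * |s - t|) ^ (2 * k + 1)) (𝓝[Set.Icc (0 : ℝ) 1] t)
        (𝓝 (polyIndex 𝕜 (LinearMap.range (iota j0 j1 t)) k / (1 + M * 0) ^ (2 * k + 1))) :=
      tendsto_const_nhds.div h1' (by simp)
    have := h2'.sub (hab.const_mul (2 * M))
    simpa using this
  refine tendsto_of_tendsto_of_tendsto_of_le_of_le' hlo hup ?_ ?_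
  · filter_upwards [self_mem_nhdsWithin] with s hs
    have := key_ineq j0 j1 h0 h1 hk hM hcomp (s := t) (t := s) ht hs
    rw [abs_sub_comm] at this
    have hq : 0 < (1 + M * |s - t|) ^ (2 * k + 1) := by positivity
    rw [sub_le_iff_le_add, div_le_iff₀ hq, mul_comm]
    exact this
  · filter_upwards [self_mem_nhdsWithin] with s hs
    exact key_ineq j0 j1 h0 h1 hk hM hcomp hs ht

/-- All values between the indices of the two end spaces are indices. -/
lemma ivt {k : ℕ} (hk : k ≠ 0) {a b : ℝ}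
    (ha : polyIndex 𝕜 (LinearMap.range (iota j0 j1 0)) k ≤ a)
    (hb : b ≤ polyIndex 𝕜 (LinearMap.range (iota j0 j1 1)) k) :
    Set.Icc a b ⊆ indexRange.{0} 𝕜 k := by
  intro c hc
  have hI : Set.Icc (polyIndex 𝕜 (LinearMap.range (iota j0 j1 0)) k)
      (polyIndex 𝕜 (LinearMap.range (iota j0 j1 1)) k) ⊆
      (fun s => polyIndex 𝕜 (LinearMap.range (iota j0 j1 s)) k) '' Set.Icc (0 : ℝ) 1 :=
    intermediate_value_Icc zero_le_one (continuousOn_index j0 j1 h0 h1 hk)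
  obtain ⟨s, hs, rfl⟩ := hI ⟨ha.trans hc.1, hc.2.trans hb⟩
  have es := eqv j0 j1 h0 h1 hs
  have fds : FiniteDimensional 𝕜 (LinearMap.range (iota j0 j1 s)) := es.finiteDimensional
  exact ⟨LinearMap.range (iota j0 j1 s), inferInstance, inferInstance,
    FiniteDimensional.complete 𝕜 _, es.toEquiv.symm.nontrivial, rfl⟩

end path

section harris

variable {X : Type u} [NormedAddCommGroup X] [NormedSpace ℂ X] {k : ℕ}

/-- Euler polygons for `u' = c • P(u)`, as polynomials in the complex parameter `c`. -/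
noncomputable def euler (A : ContinuousMultilinearMap ℂ (fun _ : Fin k => X) X) (x : X) (h : ℝ) :
    ℕ → ℂ → X
  | 0 => fun _ => x
  | (j + 1) => fun c => euler A x h j c + ((h : ℂ) * c) • A (fun _ => euler A x h j c)

lemma euler_zero (A : ContinuousMultilinearMap ℂ (fun _ : Fin k => X) X) (x : X) (h : ℝ) (j : ℕ) :
    euler A x h j 0 = x := by
  induction j with
  | zero => rfl
  | succ j ih => simp [euler, ih]

lemma differentiable_diag (A : ContinuousMultilinearMap ℂ (fun _ : Fin k => X) X) {u : ℂ → X}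
    (hu : Differentiable ℂ u) : Differentiable ℂ (fun c => A (fun _ => u c)) := by
  have h1 : Differentiable ℂ (fun m : Fin k → X => A m) :=
    (ContinuousMultilinearMap.contDiff (n := 1) A).differentiable (by norm_num)
  exact h1.comp (differentiable_pi.mpr fun _ => hu)

lemma euler_diff (A : ContinuousMultilinearMap ℂ (fun _ : Fin k => X) X) (x : X) (h : ℝ) (j : ℕ) :
    Differentiable ℂ (euler A x h j) := by
  induction j with
  | zero => exact differentiable_const x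
  | succ j ih =>
    have h1 := differentiable_diag A ih
    have h2 : Differentiable ℂ (fun c : ℂ => (h : ℂ) * c) := differentiable_id.const_mul _
    exact ih.add (h2.smul h1)

lemma euler_deriv (A : ContinuousMultilinearMap ℂ (fun _ : Fin k => X) X) (x : X) (h : ℝ) (j : ℕ) :
    HasDerivAt (euler A x h j) (((j : ℂ) * h) • A (fun _ => x)) 0 := by
  induction j with
  | zero =>
    simp only [Nat.cast_zero, zero_mul, zero_smul]
    exact hasDerivAt_const 0 x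
  | succ j ih =>
    have h1 : HasDerivAt (fun c => A (fun _ => euler A x h j c))
        (deriv (fun c => A (fun _ => euler A x h j c)) 0) 0 :=
      (differentiable_diag A (euler_diff A x h j)).differentiableAt.hasDerivAt
    have h2 : HasDerivAt (fun c : ℂ => (h : ℂ) * c) (h : ℂ) 0 := by
      simpa using (hasDerivAt_id (0 : ℂ)).const_mul (h : ℂ)
    have h3 := ih.add (h2.smul h1)
    have h4 : HasDerivAt (euler A x h (j + 1)) ((((j : ℂ) * h) • A (fun _ => x)) +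
        (((h : ℂ) * 0) • deriv (fun c => A (fun _ => euler A x h j c)) 0
          + (h : ℂ) • A (fun _ => euler A x h j 0))) 0 := h3
    refine h4.congr_deriv ?_
    rw [euler_zero, mul_zero, zero_smul, zero_add, ← add_smul]
    congr 1
    push_cast
    ring

/-- One Euler step. -/
lemma euler_step (hk : 1 ≤ k) (A : ContinuousMultilinearMap ℂ (fun _ : Fin k => X) X) {R : ℝ}
    (hR : 1 ≤ R) :
    ∃ L : ℝ, 0 ≤ L ∧ ∀ (h : ℝ) (c : ℂ) (u : X), 0 ≤ h → h ≤ 1 → ‖c‖ = h → ‖u‖ ≤ R →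
      ‖u + c • A (fun _ => u)‖ ≤ ‖u‖ + h * numRadius A * ‖u‖ ^ k + h ^ 2 * L := by
  set v := numRadius A with hv
  have hv0 : 0 ≤ v := numRadius_nonneg A
  set a := ‖A‖ with ha
  have ha0 : 0 ≤ a := norm_nonneg A
  set R2 := R + a * R ^ k with hR2
  have hR20 : R ≤ R2 := by
    have : 0 ≤ a * R ^ k := by positivity
    linarith
  set L2 := k * R2 ^ (k - 1) * (a * R ^ k) with hL2
  set L1 := a * k * R2 ^ (k - 1) * (a * R ^ k) with hL1
  have hR2nn : 0 ≤ R2 := by positivity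
  have hL2' : 0 ≤ L2 := by positivity
  have hL1' : 0 ≤ L1 := by positivity
  refine ⟨v * L2 + L1, by positivity, ?_⟩
  intro h c u hh0 hh1 hc hu
  set w := u + c • A (fun _ => u) with hw
  have hAu : ‖A (fun _ => u)‖ ≤ a * R ^ k :=
    (norm_diag_le A u).trans (mul_le_mul_of_nonneg_left (pow_le_pow_left₀ (norm_nonneg _) hu k) ha0)
  have hwu : ‖w - u‖ ≤ h * (a * R ^ k) := by
    rw [hw, add_sub_cancel_left, norm_smul, hc]
    exact mul_le_mul_of_nonneg_left hAu hh0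
  have hwn : ‖w‖ ≤ ‖u‖ + h * (a * R ^ k) := by
    have := norm_add_le u (w - u)
    rw [add_sub_cancel] at this
    linarith
  have hwR2 : ‖w‖ ≤ R2 := by
    have : h * (a * R ^ k) ≤ 1 * (a * R ^ k) := mul_le_mul_of_nonneg_right hh1 (by positivity)
    linarith
  have hdiff : ‖A (fun _ => w) - A (fun _ => u)‖ ≤ h * L1 := by
    have h1 := A.norm_image_sub_le (fun _ => w) (fun _ => u)
    have hcard : Fintype.card (Fin k) = k := Fintype.card_fin k
    have hnonempty : Nonempty (Fin k) := ⟨⟨0, by omega⟩⟩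
    have e1 : ‖(fun _ : Fin k => w)‖ = ‖w‖ := pi_norm_const w
    have e2 : ‖(fun _ : Fin k => u)‖ = ‖u‖ := pi_norm_const u
    have e3 : ‖(fun _ : Fin k => w) - (fun _ : Fin k => u)‖ = ‖w - u‖ := pi_norm_const (w - u)
    rw [e1, e2, e3, hcard] at h1
    refine h1.trans ?_
    have h2 : max ‖w‖ ‖u‖ ^ (k - 1) ≤ R2 ^ (k - 1) :=
      pow_le_pow_left₀ (le_max_of_le_left (norm_nonneg _)) (max_le hwR2 (hu.trans hR20)) _
    calc a * k * max ‖w‖ ‖u‖ ^ (k - 1) * ‖w - u‖ ≤ a * k * R2 ^ (k - 1) * (h * (a * R ^ k)) := by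
          apply mul_le_mul _ hwu (norm_nonneg _) (by positivity)
          exact mul_le_mul_of_nonneg_left h2 (by positivity)
      _ = h * L1 := by rw [hL1]; ring
  have hpow : ‖w‖ ^ k ≤ ‖u‖ ^ k + h * L2 := by
    rcases le_total ‖w‖ ‖u‖ with hle | hle
    · have : ‖w‖ ^ k ≤ ‖u‖ ^ k := pow_le_pow_left₀ (norm_nonneg _) hle k
      have : 0 ≤ h * L2 := mul_nonneg hh0 hL2'
      linarith
    · have h1 : ‖w‖ ^ k - ‖u‖ ^ k ≤ k * ‖w‖ ^ (k - 1) * (‖w‖ - ‖u‖) := by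
        -- mean value type inequality
        have key : ∀ (n : ℕ) (x y : ℝ), 0 ≤ y → y ≤ x → x ^ n - y ^ n ≤ n * x ^ (n - 1) * (x - y) := by
          intro n x y hy hxy
          induction n with
          | zero => simp
          | succ n ih =>
            have hx : 0 ≤ x := hy.trans hxy
            rcases Nat.eq_zero_or_pos n with rfl | hn
            · simp
            · have e : x ^ (n + 1) - y ^ (n + 1) = x * (x ^ n - y ^ n) + (x - y) * y ^ n := by ring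
              have e2 : y ^ n ≤ x ^ n := pow_le_pow_left₀ hy hxy n
              have e3 : x * x ^ (n - 1) = x ^ n := by
                rw [← pow_succ']; congr 1; omega
              rw [e]
              calc x * (x ^ n - y ^ n) + (x - y) * y ^ n
                  ≤ x * (n * x ^ (n - 1) * (x - y)) + (x - y) * x ^ n :=
                    add_le_add (mul_le_mul_of_nonneg_left ih hx)
                      (mul_le_mul_of_nonneg_left e2 (by linarith))
                _ = n * (x * x ^ (n - 1)) * (x - y) + (x - y) * x ^ n := by ring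
                _ = ((n + 1 : ℕ) : ℝ) * x ^ (n + 1 - 1) * (x - y) := by
                    rw [e3, Nat.add_sub_cancel]; push_cast; ring
        exact key k ‖w‖ ‖u‖ (norm_nonneg _) hle
      have h2 : (k : ℝ) * ‖w‖ ^ (k - 1) * (‖w‖ - ‖u‖) ≤ k * R2 ^ (k - 1) * (h * (a * R ^ k)) := by
        apply mul_le_mul _ (by linarith) (by linarith) (by positivity)
        exact mul_le_mul_of_nonneg_left (pow_le_pow_left₀ (norm_nonneg _) hwR2 _) (by positivity)
      have h3 : (k : ℝ) * R2 ^ (k - 1) * (h * (a * R ^ k)) = h * L2 := by rw [hL2]; ring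
      linarith
  have hmain : ‖w‖ ≤ ‖u‖ + h * (v * ‖w‖ ^ k + h * L1) := by
    by_cases hw0 : w = 0
    · rw [hw0, norm_zero]
      have : 0 ≤ h * (v * ‖(0 : X)‖ ^ k + h * L1) := by positivity
      rw [norm_zero] at this
      have := norm_nonneg u
      linarith
    · obtain ⟨f, hf, hfw⟩ := exists_dual_vector ℂ w (norm_ne_zero_iff.mpr hw0)
      have h1 : f w = f u + c * f (A (fun _ => u)) := by
        rw [hw, map_add, map_smul, smul_eq_mul]
      have h2 : ‖w‖ ≤ ‖f u‖ + ‖c * f (A (fun _ => u))‖ := by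
        have : ‖f w‖ = ‖w‖ := by rw [hfw]; simp
        rw [← this, h1]
        exact norm_add_le _ _
      have h3 : ‖f u‖ ≤ ‖u‖ := by
        have := f.le_opNorm u
        rwa [hf, one_mul] at this
      have h4 : ‖f (A (fun _ => u))‖ ≤ v * ‖w‖ ^ k + h * L1 := by
        have e1 : f (A (fun _ => u)) = f (A (fun _ => w)) - f (A (fun _ => w) - A (fun _ => u)) := by
          rw [map_sub]; ring
        rw [e1]
        refine (norm_sub_le _ _).trans (add_le_add (num_le A hw0 hf.le hfw) ?_)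
        have := f.le_opNorm (A (fun _ => w) - A (fun _ => u))
        rw [hf, one_mul] at this
        exact this.trans hdiff
      rw [norm_mul, hc] at h2
      calc ‖w‖ ≤ ‖f u‖ + h * ‖f (A (fun _ => u))‖ := h2
        _ ≤ ‖u‖ + h * (v * ‖w‖ ^ k + h * L1) :=
            add_le_add h3 (mul_le_mul_of_nonneg_left h4 hh0)
  calc ‖w‖ ≤ ‖u‖ + h * (v * ‖w‖ ^ k + h * L1) := hmain
    _ ≤ ‖u‖ + h * (v * (‖u‖ ^ k + h * L2) + h * L1) := by
        gcongr
    _ = ‖u‖ + h * v * ‖u‖ ^ k + h ^ 2 * (v * L2 + L1) := by ring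

/-- the `m`-th root of `1 / b`. -/
noncomputable def rho (m : ℕ) (b : ℝ) : ℝ := (b⁻¹) ^ ((m : ℝ)⁻¹)

lemma rho_pos {m : ℕ} {b : ℝ} (hb : 0 < b) : 0 < rho m b :=
  Real.rpow_pos_of_pos (inv_pos.mpr hb) _

lemma rho_pow {m : ℕ} (hm : m ≠ 0) {b : ℝ} (hb : 0 < b) : rho m b ^ m = b⁻¹ :=
  Real.rpow_inv_natCast_pow (inv_pos.mpr hb).le hm

lemma rho_anti {m : ℕ} (hm : m ≠ 0) {b b' : ℝ} (hb : 0 < b) (hbb : b ≤ b') :
    rho m b' ≤ rho m b := by
  refine (pow_le_pow_iff_left₀ (rho_pos (hb.trans_le hbb)).le (rho_pos hb).le hm).mp ?_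
  rw [rho_pow hm (hb.trans_le hbb), rho_pow hm hb]
  exact inv_anti₀ hb hbb

lemma one_le_rho {m : ℕ} (hm : m ≠ 0) {b : ℝ} (hb : 0 < b) (hb1 : b ≤ 1) : 1 ≤ rho m b := by
  have := rho_anti hm hb hb1
  have h1 : rho m 1 = 1 := by simp [rho]
  rwa [h1] at this

lemma rho_step {m : ℕ} (hm : m ≠ 0) {b d : ℝ} (hb : 0 < b) (hd : 0 ≤ d) (hbd : d < b) :
    rho m b * (1 + d / b / m) ≤ rho m (b - d) := by
  have hb' : 0 < b - d := by linarith
  have hm' : (0 : ℝ) < m := by positivity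
  have hy0 : 0 ≤ d / b := by positivity
  have hy1 : d / b < 1 := (div_lt_one hb).mpr hbd
  have h1 : 0 ≤ 1 + d / b / m := by positivity
  refine (pow_le_pow_iff_left₀ (mul_nonneg (rho_pos hb).le h1) (rho_pos hb').le hm).mp ?_
  rw [mul_pow, rho_pow hm hb, rho_pow hm hb']
  have h2 : (1 + d / b / m) ^ m ≤ Real.exp (d / b) := by
    have := Real.add_one_le_exp (d / b / m)
    calc (1 + d / b / m) ^ m ≤ (Real.exp (d / b / m)) ^ m :=
          pow_le_pow_left₀ h1 (by linarith) m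
      _ = Real.exp (d / b) := by
          rw [← Real.exp_nat_mul]
          congr 1
          field_simp
  have h3 : Real.exp (d / b) ≤ (1 - d / b)⁻¹ := by
    have h4 := Real.add_one_le_exp (-(d / b))
    rw [Real.exp_neg] at h4
    have h5 : 0 < 1 - d / b := by linarith
    rw [le_inv_comm₀ (Real.exp_pos _) h5]
    linarith
  calc b⁻¹ * (1 + d / b / m) ^ m ≤ b⁻¹ * (1 - d / b)⁻¹ :=
        mul_le_mul_of_nonneg_left (h2.trans h3) (inv_pos.mpr hb).le
    _ = (b - d)⁻¹ := by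
        rw [← mul_inv]
        congr 1
        field_simp

/-- **Harris' inequality**: `‖P‖ ≤ k ^ (k / (k - 1)) v(P)`. -/
lemma harris_aux (hk : 2 ≤ k) (A : ContinuousMultilinearMap ℂ (fun _ : Fin k => X) X) {x : X}
    (hx : ‖x‖ = 1) {V : ℝ} (hV : numRadius A < V) :
    ‖A (fun _ => x)‖ ≤ k * V * rho (k - 1) ((k : ℝ)⁻¹) := by
  obtain ⟨m, rfl⟩ : ∃ m, k = m + 1 := ⟨k - 1, by omega⟩
  have hm : m ≠ 0 := by omega
  rw [Nat.add_sub_cancel]
  set v := numRadius A with hv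
  have hv0 : 0 ≤ v := numRadius_nonneg A
  have hV0 : 0 < V := hv0.trans_lt hV
  have hm' : (0 : ℝ) < m := by positivity
  have hk' : (0 : ℝ) < ((m + 1 : ℕ) : ℝ) := by positivity
  have hk1 : (1 : ℝ) ≤ ((m + 1 : ℕ) : ℝ) := by exact_mod_cast Nat.succ_le_succ (Nat.zero_le m)
  set K : ℝ := ((m + 1 : ℕ) : ℝ) with hK
  have hKinv : 0 < K⁻¹ := inv_pos.mpr hk'
  have hKinv1 : K⁻¹ ≤ 1 := inv_le_one_of_one_le₀ hk1
  set R := rho m K⁻¹ with hR
  have hR1 : 1 ≤ R := one_le_rho hm hKinv hKinv1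
  obtain ⟨L, hL0, hstep⟩ := euler_step (by omega : 1 ≤ m + 1) A hR1
  -- choose the number of steps
  obtain ⟨n, hn⟩ := exists_nat_ge (max 1 (max ((K * V)⁻¹) (L / (K * V * (V - v)))))
  have hn1 : (1 : ℝ) ≤ n := (le_max_left _ _).trans hn
  have hn2 : (K * V)⁻¹ ≤ n := (le_max_left _ _).trans ((le_max_right _ _).trans hn)
  have hn3 : L / (K * V * (V - v)) ≤ n := (le_max_right _ _).trans ((le_max_right _ _).trans hn)
  have hn0 : (0 : ℝ) < n := by linarith
  set h : ℝ := (K * V * n)⁻¹ with hh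
  have hKV : 0 < K * V := by positivity
  have hh0 : 0 < h := by positivity
  have hh1 : h ≤ 1 := by
    rw [hh]
    apply inv_le_one_of_one_le₀
    have := mul_le_mul_of_nonneg_left hn2 hKV.le
    rwa [mul_inv_cancel₀ hKV.ne'] at this
  have hhL : h * L ≤ V - v := by
    have hVv : 0 < V - v := by linarith
    rw [div_le_iff₀ (by positivity)] at hn3
    rw [hh, inv_mul_le_iff₀ (by positivity)]
    linarith
  -- the bound along the polygon
  set b : ℕ → ℝ := fun j => 1 - (m / K) * (j / n) with hb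
  have hmK : (m : ℝ) / K = 1 - K⁻¹ := by
    have : (m : ℝ) = K - 1 := by rw [hK]; push_cast; ring
    rw [this, sub_div, div_self hk'.ne', one_div]
  have hbpos : ∀ j : ℕ, j ≤ n → K⁻¹ ≤ b j ∧ b j ≤ 1 := by
    intro j hj
    have h1 : (j : ℝ) / n ≤ 1 := by
      rw [div_le_one hn0]; exact_mod_cast hj
    have h2 : 0 ≤ (j : ℝ) / n := by positivity
    have h3 : 0 ≤ (m : ℝ) / K := by positivity
    constructor
    · have : (m : ℝ) / K * (j / n) ≤ (m / K) * 1 := mul_le_mul_of_nonneg_left h1 h3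
      rw [hb]
      simp only
      rw [hmK] at *
      linarith
    · have : 0 ≤ (m : ℝ) / K * (j / n) := mul_nonneg h3 h2
      rw [hb]
      simp only
      linarith
  have hpoly : ∀ c : ℂ, ‖c‖ = 1 → ∀ j : ℕ, j ≤ n → ‖euler A x h j c‖ ≤ rho m (b j) := by
    intro c hc j
    induction j with
    | zero =>
      intro _
      have : b 0 = 1 := by simp [hb]
      rw [this]
      change ‖x‖ ≤ _
      rw [hx]
      simp [rho]
    | succ j ih =>
      intro hj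
      have ih' := ih (by omega)
      obtain ⟨hb1, hb2⟩ := hbpos j (by omega)
      obtain ⟨hb3, hb4⟩ := hbpos (j + 1) hj
      have hbj : 0 < b j := hKinv.trans_le hb1
      have hbj' : 0 < b (j + 1) := hKinv.trans_le hb3
      have hρR : rho m (b j) ≤ R := rho_anti hm hKinv hb1
      have hρ1 : 1 ≤ rho m (b j) := one_le_rho hm hbj hb2
      have e1 := hstep h ((h : ℂ) * c) (euler A x h j c) hh0.le hh1 (by
        rw [norm_mul, hc, mul_one, Complex.norm_real, Real.norm_of_nonneg hh0.le]) (ih'.trans hρR)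
      have e2 : ‖euler A x h (j + 1) c‖ ≤ rho m (b j) + h * v * rho m (b j) ^ (m + 1) + h ^ 2 * L := by
        refine e1.trans ?_
        gcongr
      set d : ℝ := (m / K) / n with hd
      have hd0 : 0 ≤ d := by positivity
      have hbd : b (j + 1) = b j - d := by
        simp only [hb, hd]
        push_cast
        field_simp
        ring
      have e3 := rho_step hm hbj hd0 (by rw [hbd] at hbj'; linarith)
      rw [← hbd] at e3
      refine le_trans ?_ e3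
      refine e2.trans ?_
      have e4 : h * V * rho m (b j) ^ (m + 1) = rho m (b j) * (d / b j / m) := by
        rw [pow_succ, rho_pow hm hbj, hh, hd]
        field_simp
      have e5 : h ^ 2 * L ≤ h * (V - v) * rho m (b j) ^ (m + 1) := by
        have e6 : 1 ≤ rho m (b j) ^ (m + 1) := one_le_pow₀ hρ1
        calc h ^ 2 * L = h * (h * L) := by ring
          _ ≤ h * (V - v) := mul_le_mul_of_nonneg_left hhL hh0.le
          _ = h * (V - v) * 1 := by ring
          _ ≤ h * (V - v) * rho m (b j) ^ (m + 1) :=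
              mul_le_mul_of_nonneg_left e6 (mul_nonneg hh0.le (by linarith))
      calc rho m (b j) + h * v * rho m (b j) ^ (m + 1) + h ^ 2 * L
          ≤ rho m (b j) + h * v * rho m (b j) ^ (m + 1) + h * (V - v) * rho m (b j) ^ (m + 1) := by
            linarith
        _ = rho m (b j) + h * V * rho m (b j) ^ (m + 1) := by ring
        _ = rho m (b j) * (1 + d / b j / m) := by rw [e4]; ring
  -- Cauchy estimate
  have hbn : b n = K⁻¹ := by
    simp only [hb]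
    rw [div_self hn0.ne', hmK]; ring
  have hc := Complex.norm_deriv_le_of_forall_mem_sphere_norm_le (c := 0) (R := 1) (C := R)
    (f := euler A x h n) one_pos (euler_diff A x h n).diffContOnCl (by
      intro z hz
      have hz' : ‖z‖ = 1 := by simpa using hz
      have := hpoly z hz' n le_rfl
      rwa [hbn] at this)
  rw [(euler_deriv A x h n).deriv, norm_smul, div_one] at hc
  have e7 : ‖(n : ℂ) * (h : ℂ)‖ = (K * V)⁻¹ := by
    rw [norm_mul, Complex.norm_natCast, Complex.norm_real, Real.norm_of_nonneg hh0.le, hh]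
    field_simp
  rw [e7, inv_mul_le_iff₀ hKV] at hc
  exact hc

lemma rho_eq (hk : 2 ≤ k) : (k : ℝ) * rho (k - 1) ((k : ℝ)⁻¹) = (k : ℝ) ^ ((k : ℝ) / ((k : ℝ) - 1)) := by
  have hk0 : (0 : ℝ) < k := by positivity
  have hk1 : (0 : ℝ) < (k : ℝ) - 1 := by
    have : (2 : ℝ) ≤ k := by exact_mod_cast hk
    linarith
  unfold rho
  rw [inv_inv, Nat.cast_sub (by omega), Nat.cast_one]
  nth_rewrite 1 [← Real.rpow_one (k : ℝ)]
  rw [← Real.rpow_add hk0]
  congr 1
  field_simp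
  ring

lemma harris (hk : 2 ≤ k) (A : ContinuousMultilinearMap ℂ (fun _ : Fin k => X) X) {x : X}
    (hx : ‖x‖ = 1) :
    ‖A (fun _ => x)‖ ≤ (k : ℝ) ^ ((k : ℝ) / ((k : ℝ) - 1)) * numRadius A := by
  have hk0 : (0 : ℝ) < k := by positivity
  have hK : 0 < (k : ℝ) ^ ((k : ℝ) / ((k : ℝ) - 1)) := Real.rpow_pos_of_pos hk0 _
  refine le_of_forall_pos_le_add (fun ε hε => ?_)
  have h1 := harris_aux hk A hx (V := numRadius A + ε / (k : ℝ) ^ ((k : ℝ) / ((k : ℝ) - 1)))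
    (by have := div_pos hε hK; linarith)
  refine h1.trans (le_of_eq ?_)
  rw [mul_right_comm, rho_eq hk]
  field_simp

end harris

section extremal

variable (k : ℕ)

/-- The weight `(k w - w ^ k) / (k - 1)`. -/
noncomputable def wt (w : ℝ) : ℝ := ((k : ℝ) * w - w ^ k) / ((k : ℝ) - 1)

/-- The right end point `k ^ (1 / (k - 1))`. -/
noncomputable def WW : ℝ := rho (k - 1) ((k : ℝ)⁻¹)

/-- The embedding `(a, b) ↦ (w ↦ (wt w * a, w ^ k * b))` of `ℂ × ℂ` into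
`C([1, WW], ℂ ⊕₁ ℂ)`. -/
noncomputable def emb : (ℂ × ℂ) →ₗ[ℂ] C(Set.Icc (1 : ℝ) (WW k), WithLp 1 (ℂ × ℂ)) where
  toFun e := ⟨fun w => WithLp.toLp 1 ((wt k w : ℂ) * e.1, (((w : ℝ) ^ k : ℝ) : ℂ) * e.2), by
    have h1 : Continuous (fun w : Set.Icc (1 : ℝ) (WW k) => ((wt k w : ℂ) * e.1, (((w : ℝ) ^ k : ℝ) : ℂ) * e.2)) := by
      unfold wt
      fun_prop
    exact (WithLp.prod_continuous_toLp 1 ℂ ℂ).comp h1⟩
  map_add' a b := by
    ext w
    rw [ContinuousMap.add_apply]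
    change WithLp.toLp 1 _ = WithLp.toLp 1 _ + WithLp.toLp 1 _
    rw [← WithLp.toLp_add]
    simp [mul_add]
  map_smul' c a := by
    ext w
    rw [ContinuousMap.smul_apply]
    change WithLp.toLp 1 _ = (RingHom.id ℂ) c • WithLp.toLp 1 _
    rw [← WithLp.toLp_smul]
    simp [mul_left_comm]

variable {k} (hk : 2 ≤ k)
include hk

lemma one_le_WW : 1 ≤ WW k := by
  refine one_le_rho (by omega) (by positivity) (inv_le_one_of_one_le₀ ?_)
  exact_mod_cast (by omega : 1 ≤ k)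

lemma WW_pow : WW k ^ (k - 1) = k := by
  have : (0 : ℝ) < (k : ℝ)⁻¹ := by positivity
  unfold WW
  rw [rho_pow (by omega) this, inv_inv]

lemma km1_pos : (0 : ℝ) < (k : ℝ) - 1 := by
  have : (2 : ℝ) ≤ k := by exact_mod_cast hk
  linarith

lemma wt_nonneg {w : ℝ} (hw : w ∈ Set.Icc (1 : ℝ) (WW k)) : 0 ≤ wt k w := by
  unfold wt
  apply div_nonneg _ (km1_pos hk).le
  have h1 : w ^ k = w * w ^ (k - 1) := by
    rw [← pow_succ']; congr 1; omega
  have h2 : w ^ (k - 1) ≤ k := by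
    rw [← WW_pow hk]
    exact pow_le_pow_left₀ (by linarith [hw.1]) hw.2 _
  rw [h1]
  have h3 : 0 ≤ w := by linarith [hw.1]
  nlinarith

omit hk in
lemma bern (v : ℝ) (hv : 0 ≤ v) : (k : ℝ) * v ≤ ((k : ℝ) - 1) + v ^ k := by
  have := one_add_mul_le_pow (a := v - 1) (by linarith) k
  rw [add_sub_cancel] at this
  linarith

lemma wt_le_one {w : ℝ} (hw : 0 ≤ w) : wt k w ≤ 1 := by
  unfold wt
  rw [div_le_one (km1_pos hk)]
  have := bern (k := k) w hw
  linarith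

lemma emb_norm_apply (e : ℂ × ℂ) (w : Set.Icc (1 : ℝ) (WW k)) :
    ‖emb k e w‖ = wt k w * ‖e.1‖ + (w : ℝ) ^ k * ‖e.2‖ := by
  have hw0 : (0 : ℝ) ≤ w := by linarith [w.2.1]
  have h1 : ‖emb k e w‖ = ‖(wt k w : ℂ) * e.1‖ + ‖(((w : ℝ) ^ k : ℝ) : ℂ) * e.2‖ := by
    rw [WithLp.prod_norm_eq_of_L1]; rfl
  rw [h1, norm_mul, norm_mul, Complex.norm_real, Complex.norm_real,
    Real.norm_of_nonneg (wt_nonneg hk w.2), Real.norm_of_nonneg (pow_nonneg hw0 k)]

lemma emb_le {e : ℂ × ℂ} {C : ℝ} (hC : 0 ≤ C) : ‖emb k e‖ ≤ C ↔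
    ∀ w ∈ Set.Icc (1 : ℝ) (WW k), wt k w * ‖e.1‖ + w ^ k * ‖e.2‖ ≤ C := by
  rw [ContinuousMap.norm_le _ hC]
  constructor
  · intro h w hw
    have := h ⟨w, hw⟩
    rwa [emb_norm_apply hk] at this
  · intro h w
    rw [emb_norm_apply hk]
    exact h w w.2

lemma wt_one : wt k 1 = 1 := by
  unfold wt
  rw [one_pow, mul_one, div_self (km1_pos hk).ne']

/-- The key estimate. -/
lemma emb_step {a b : ℂ} (h : ‖emb k (a, b)‖ ≤ 1) {η : ℝ} (hη : 0 < η) {μ : ℂ} (hμ : ‖μ‖ = 1) :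
    ‖emb k (a, b + ((η / (1 + ((k : ℝ) - 1) * η) : ℝ) : ℂ) * μ * a ^ k)‖ ≤ 1 + η := by
  have hk1 := km1_pos hk
  set h' : ℝ := η / (1 + ((k : ℝ) - 1) * η) with hh'
  have hden : 0 < 1 + ((k : ℝ) - 1) * η := by positivity
  have hh0 : 0 < h' := by positivity
  have hhη : h' ≤ η := by
    rw [hh', div_le_iff₀ hden]
    nlinarith [mul_pos hk1 hη]
  rw [emb_le hk zero_le_one] at h
  rw [emb_le hk (by linarith)]
  intro w hw
  have hw0 : 0 < w := by linarith [hw.1]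
  simp only at h ⊢
  set r := ‖a‖ with hr
  set s := ‖b‖ with hs
  have hr0 : 0 ≤ r := norm_nonneg a
  have hs0 : 0 ≤ s := norm_nonneg b
  have hnorm : ‖b + ((h' : ℝ) : ℂ) * μ * a ^ k‖ ≤ s + h' * r ^ k := by
    refine (norm_add_le _ _).trans ?_
    rw [norm_mul, norm_mul, norm_pow, hμ, Complex.norm_real, Real.norm_of_nonneg hh0.le, mul_one]
  have hwk : 0 ≤ w ^ k := by positivity
  have h1 := h w hw
  have hbound : wt k w * r + w ^ k * ‖b + ((h' : ℝ) : ℂ) * μ * a ^ k‖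
      ≤ wt k w * r + w ^ k * s + h' * (w * r) ^ k := by
    have := mul_le_mul_of_nonneg_left hnorm hwk
    rw [mul_pow]
    linarith
  refine hbound.trans ?_
  rcases le_or_gt (w * r) 1 with hwr | hwr
  · have h2 : (w * r) ^ k ≤ 1 := pow_le_one₀ (by positivity) hwr
    have h3 : h' * (w * r) ^ k ≤ h' * 1 := mul_le_mul_of_nonneg_left h2 hh0.le
    linarith
  · -- r > 0, 1 / r in the interval
    have hrpos : 0 < r := by
      rcases eq_or_lt_of_le hr0 with h0 | h0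
      · rw [← h0, mul_zero] at hwr
        linarith
      · exact h0
    have h11 := h 1 ⟨le_rfl, one_le_WW hk⟩
    rw [wt_one hk, one_pow] at h11
    have hr1 : r ≤ 1 := by linarith
    have hw1 : r⁻¹ ≤ w := by
      rw [inv_le_iff_one_le_mul₀ hrpos]
      linarith
    have h12 := h r⁻¹ ⟨(one_le_inv₀ hrpos).mpr hr1, hw1.trans hw.2⟩
    -- s ≤ (r - r^k)/(k-1)
    have hs1 : s ≤ (r - r ^ k) / ((k : ℝ) - 1) := by
      rw [le_div_iff₀ hk1]
      unfold wt at h12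
      rw [inv_pow] at h12
      have hrk : 0 < r ^ k := by positivity
      have h13 := mul_le_mul_of_nonneg_right h12 (mul_pos hrk hk1).le
      have e1 : (((k : ℝ) * r⁻¹ - (r ^ k)⁻¹) / ((k : ℝ) - 1) * r + (r ^ k)⁻¹ * s)
          * (r ^ k * ((k : ℝ) - 1)) = k * r ^ k - r + s * ((k : ℝ) - 1) := by
        field_simp
      rw [e1] at h13
      linarith
    set u := w * r with hu
    have hu0 : 0 ≤ u := by linarith
    have h14 : wt k w * r + w ^ k * s + h' * u ^ k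
        ≤ ((k : ℝ) * u - u ^ k) / ((k : ℝ) - 1) + h' * u ^ k := by
      have h15 := mul_le_mul_of_nonneg_left hs1 hwk
      have e2 : wt k w * r + w ^ k * ((r - r ^ k) / ((k : ℝ) - 1))
          = ((k : ℝ) * u - u ^ k) / ((k : ℝ) - 1) := by
        unfold wt
        rw [hu, mul_pow]
        field_simp
        ring
      linarith
    refine h14.trans ?_
    -- Bernoulli
    set q := 1 + η with hq
    have hq0 : 0 < q := by linarith
    have h16 := bern (k := k) (u / q) (by positivity)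
    rw [div_pow] at h16
    have hqk : (1 + ((k : ℝ) - 1) * η) ≤ q ^ (k - 1) := by
      have := one_add_mul_le_pow (a := η) (by linarith) (k - 1)
      rw [Nat.cast_sub (by omega), Nat.cast_one] at this
      exact this
    have hqk2 : q ^ k = q * q ^ (k - 1) := by
      rw [← pow_succ']; congr 1; omega
    have h17 : (k : ℝ) * u ≤ ((k : ℝ) - 1) * q + u ^ k / q ^ (k - 1) := by
      have h18 := mul_le_mul_of_nonneg_right h16 hq0.le
      have e3 : (k : ℝ) * (u / q) * q = k * u := by field_simp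
      have e4 : (((k : ℝ) - 1) + u ^ k / q ^ k) * q = ((k : ℝ) - 1) * q + u ^ k / q ^ (k - 1) := by
        rw [hqk2]
        field_simp
      rwa [e3, e4] at h18
    have h19 : u ^ k / q ^ (k - 1) ≤ u ^ k / (1 + ((k : ℝ) - 1) * η) :=
      div_le_div_of_nonneg_left (by positivity) hden hqk
    have e5 : 1 - ((k : ℝ) - 1) * h' = 1 / (1 + ((k : ℝ) - 1) * η) := by
      rw [hh']
      field_simp
      ring
    have e6 : ((k : ℝ) * u - u ^ k) / ((k : ℝ) - 1) + h' * u ^ k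
        = ((k : ℝ) * u - u ^ k * (1 - ((k : ℝ) - 1) * h')) / ((k : ℝ) - 1) := by
      field_simp
      ring
    rw [e6, e5, div_le_iff₀ hk1, mul_one_div]
    linarith

lemma emb_inj : Function.Injective (emb k) := by
  rw [injective_iff_map_eq_zero]
  intro e he
  have h1 : ‖emb k e‖ ≤ 0 := by rw [he, norm_zero]
  have h2 := (emb_le hk le_rfl).mp h1 1 ⟨le_rfl, one_le_WW hk⟩
  rw [wt_one hk, one_pow, one_mul, one_mul] at h2
  have h3 := norm_nonneg e.1
  have h4 := norm_nonneg e.2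
  have h5 : ‖e.1‖ = 0 := by linarith
  have h6 : ‖e.2‖ = 0 := by linarith
  exact Prod.ext (norm_eq_zero.mp h5) (norm_eq_zero.mp h6)

lemma emb_one_zero : ‖emb k ((1 : ℂ), (0 : ℂ))‖ = 1 := by
  apply le_antisymm
  · rw [emb_le hk zero_le_one]
    intro w hw
    have := wt_le_one hk (w := w) (by linarith [hw.1])
    simpa using this
  · have := (emb_le hk (norm_nonneg _)).mp (le_refl ‖emb k ((1 : ℂ), (0 : ℂ))‖) 1
      ⟨le_rfl, one_le_WW hk⟩
    rw [wt_one hk] at this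
    simpa using this

lemma le_emb_zero_one : (k : ℝ) * WW k ≤ ‖emb k ((0 : ℂ), (1 : ℂ))‖ := by
  have := (emb_le hk (norm_nonneg _)).mp (le_refl ‖emb k ((0 : ℂ), (1 : ℂ))‖) (WW k)
      ⟨one_le_WW hk, le_rfl⟩
  have e : WW k ^ k = k * WW k := by
    have h1 : WW k ^ k = WW k * WW k ^ (k - 1) := by
      rw [← pow_succ']; congr 1; omega
    rw [h1, WW_pow hk, mul_comm]
  rw [e] at this
  simpa using this

end extremal


section ends

variable {k : ℕ}

/-- The complex plane `ℂ × ℂ` with the maximum norm has polynomial numerical indices `1`. -/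
lemma num_sup (A : ContinuousMultilinearMap ℂ (fun _ : Fin k => ℂ × ℂ) (ℂ × ℂ)) {x : ℂ × ℂ}
    (hx : ‖x‖ = 1) : ‖A (fun _ => x)‖ ≤ numRadius A := by
  have hx1 : ‖x.1‖ ≤ 1 := by rw [← hx]; exact norm_fst_le x
  have hx2 : ‖x.2‖ ≤ 1 := by rw [← hx]; exact norm_snd_le x
  rw [Prod.norm_def]
  apply max_le
  · -- first coordinate
    have hd : Differentiable ℂ (fun z : ℂ => (A (fun _ => ((z, x.2) : ℂ × ℂ))).1) := by
      have h1 := differentiable_diag A (u := fun z : ℂ => ((z, x.2) : ℂ × ℂ))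
        (differentiable_id.prodMk (differentiable_const _))
      exact differentiable_fst.comp h1
    have hb : ∀ z ∈ frontier (Metric.ball (0 : ℂ) 1),
        ‖(A (fun _ => ((z, x.2) : ℂ × ℂ))).1‖ ≤ numRadius A := by
      intro z hz
      rw [frontier_ball (0 : ℂ) one_ne_zero, mem_sphere_zero_iff_norm] at hz
      let f : (ℂ × ℂ) →L[ℂ] ℂ := (starRingEnd ℂ z) • ContinuousLinearMap.fst ℂ ℂ ℂ
      have hfapp : ∀ y : ℂ × ℂ, f y = (starRingEnd ℂ z) * y.1 := fun y => rfl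
      have hy : ‖((z, x.2) : ℂ × ℂ)‖ = 1 := by
        rw [Prod.norm_def]; simp only; rw [hz]; exact max_eq_left hx2
      have hfy : f ((z, x.2) : ℂ × ℂ) = 1 := by
        rw [hfapp]
        simp only
        rw [← Complex.normSq_eq_conj_mul_self, Complex.normSq_eq_norm_sq, hz]
        norm_num
      have hfn : ‖f‖ = 1 := by
        apply le_antisymm
        · refine ContinuousLinearMap.opNorm_le_bound _ zero_le_one (fun y => ?_)
          rw [hfapp, norm_mul, RCLike.norm_conj, hz]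
          exact mul_le_mul_of_nonneg_left (norm_fst_le y) zero_le_one
        · have := f.le_opNorm ((z, x.2) : ℂ × ℂ)
          rw [hfy, hy, norm_one, mul_one] at this
          exact this
      have := le_numRadius A hy hfn hfy
      rwa [hfapp, norm_mul, RCLike.norm_conj, hz, one_mul] at this
    have := Complex.norm_le_of_forall_mem_frontier_norm_le Metric.isBounded_ball
      hd.diffContOnCl hb (z := x.1) (by
        rw [closure_ball (0 : ℂ) one_ne_zero, mem_closedBall_zero_iff]; exact hx1)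
    exact this
  · have hd : Differentiable ℂ (fun z : ℂ => (A (fun _ => ((x.1, z) : ℂ × ℂ))).2) := by
      have h1 := differentiable_diag A (u := fun z : ℂ => ((x.1, z) : ℂ × ℂ))
        ((differentiable_const _).prodMk differentiable_id)
      exact differentiable_snd.comp h1
    have hb : ∀ z ∈ frontier (Metric.ball (0 : ℂ) 1),
        ‖(A (fun _ => ((x.1, z) : ℂ × ℂ))).2‖ ≤ numRadius A := by
      intro z hz
      rw [frontier_ball (0 : ℂ) one_ne_zero, mem_sphere_zero_iff_norm] at hz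
      let f : (ℂ × ℂ) →L[ℂ] ℂ := (starRingEnd ℂ z) • ContinuousLinearMap.snd ℂ ℂ ℂ
      have hfapp : ∀ y : ℂ × ℂ, f y = (starRingEnd ℂ z) * y.2 := fun y => rfl
      have hy : ‖((x.1, z) : ℂ × ℂ)‖ = 1 := by
        rw [Prod.norm_def]; simp only; rw [hz]; exact max_eq_right hx1
      have hfy : f ((x.1, z) : ℂ × ℂ) = 1 := by
        rw [hfapp]
        simp only
        rw [← Complex.normSq_eq_conj_mul_self, Complex.normSq_eq_norm_sq, hz]
        norm_num
      have hfn : ‖f‖ = 1 := by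
        apply le_antisymm
        · refine ContinuousLinearMap.opNorm_le_bound _ zero_le_one (fun y => ?_)
          rw [hfapp, norm_mul, RCLike.norm_conj, hz]
          exact mul_le_mul_of_nonneg_left (norm_snd_le y) zero_le_one
        · have := f.le_opNorm ((x.1, z) : ℂ × ℂ)
          rw [hfy, hy, norm_one, mul_one] at this
          exact this
      have := le_numRadius A hy hfn hfy
      rwa [hfapp, norm_mul, RCLike.norm_conj, hz, one_mul] at this
    have := Complex.norm_le_of_forall_mem_frontier_norm_le Metric.isBounded_ball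
      hd.diffContOnCl hb (z := x.2) (by
        rw [closure_ball (0 : ℂ) one_ne_zero, mem_closedBall_zero_iff]; exact hx2)
    exact this

lemma index_sup : 1 ≤ polyIndex ℂ (ℂ × ℂ) k := by
  apply le_polyIndex
  intro A hA
  rw [← hA]
  apply Real.sSup_le _ (numRadius_nonneg A)
  rintro r ⟨x, hx, rfl⟩
  exact num_sup A hx

variable (hk : 2 ≤ k)
include hk

omit hk in
lemma id_inj : Function.Injective (LinearMap.id : (ℂ × ℂ) →ₗ[ℂ] (ℂ × ℂ)) := fun _ _ h => h

lemma index_right :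
    1 ≤ polyIndex ℂ (LinearMap.range (iota (emb k) (LinearMap.id : (ℂ × ℂ) →ₗ[ℂ] (ℂ × ℂ)) 1)) k := by
  have hs : (1 : ℝ) ∈ Set.Icc (0 : ℝ) 1 := ⟨zero_le_one, le_rfl⟩
  let e := eqv (emb k) (LinearMap.id : (ℂ × ℂ) →ₗ[ℂ] (ℂ × ℂ)) (emb_inj hk) id_inj hs
  let T : (ℂ × ℂ) ≃ₗᵢ[ℂ] LinearMap.range (iota (emb k) (LinearMap.id : (ℂ × ℂ) →ₗ[ℂ] (ℂ × ℂ)) 1) :=
    ⟨e, fun x => by
      have := norm_eqv (emb k) (LinearMap.id : (ℂ × ℂ) →ₗ[ℂ] (ℂ × ℂ)) (emb_inj hk) id_inj hs x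
      rw [sub_self, zero_mul, zero_add, one_mul] at this
      exact this⟩
  rw [← polyIndex_congr (by omega) T]
  exact index_sup

lemma index_left :
    polyIndex ℂ (LinearMap.range (iota (emb k) (LinearMap.id : (ℂ × ℂ) →ₗ[ℂ] (ℂ × ℂ)) 0)) k
      ≤ 1 / ((k : ℝ) * WW k) := by
  have hs : (0 : ℝ) ∈ Set.Icc (0 : ℝ) 1 := ⟨le_rfl, zero_le_one⟩
  let e := eqv (emb k) (LinearMap.id : (ℂ × ℂ) →ₗ[ℂ] (ℂ × ℂ)) (emb_inj hk) id_inj hs
  have fd : FiniteDimensional ℂ
      (LinearMap.range (iota (emb k) (LinearMap.id : (ℂ × ℂ) →ₗ[ℂ] (ℂ × ℂ)) 0)) :=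
    e.finiteDimensional
  have hn : ∀ x, ‖e x‖ = ‖emb k x‖ := by
    intro x
    have := norm_eqv (emb k) (LinearMap.id : (ℂ × ℂ) →ₗ[ℂ] (ℂ × ℂ)) (emb_inj hk) id_inj hs x
    rw [sub_zero, zero_mul, add_zero, one_mul] at this
    exact this
  let φ : LinearMap.range (iota (emb k) (LinearMap.id : (ℂ × ℂ) →ₗ[ℂ] (ℂ × ℂ)) 0) →L[ℂ] ℂ :=
    LinearMap.toContinuousLinearMap ((LinearMap.fst ℂ ℂ ℂ).comp e.symm.toLinearMap)
  have hφ : ∀ x : ℂ × ℂ, φ (e x) = x.1 := by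
    intro x
    change (e.symm (e x)).1 = x.1
    rw [LinearEquiv.symm_apply_apply]
  let A := rankOne (𝕜 := ℂ) k φ (e (0, 1))
  have hk0 : (0 : ℝ) < k := by positivity
  have hW : 0 < WW k := lt_of_lt_of_le one_pos (one_le_WW hk)
  refine polyIndex_le' A (K := (k : ℝ) * WW k) (by positivity) (x₀ := e (1, 0)) ?_ ?_ ?_
  · exact (hn (1, 0)).trans (emb_one_zero hk)
  · rw [rankOne_apply, hφ, one_pow, one_smul]
    exact (le_emb_zero_one hk).trans (hn (0, 1)).symm.le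
  · intro x f hx hf hfx
    obtain ⟨⟨a, b⟩, rfl⟩ := e.surjective x
    rw [rankOne_apply, hφ]
    have hx' : ‖emb k (a, b)‖ = 1 := (hn (a, b)).symm.trans hx
    simp only
    by_cases hz : f (a ^ k • e (0, 1)) = 0
    · rw [hz, norm_zero]; exact zero_le_one
    set z : ℂ := f (a ^ k • e (0, 1)) with hzdef
    have hz0 : 0 < ‖z‖ := norm_pos_iff.mpr hz
    let μ : ℂ := (starRingEnd ℂ z) / (‖z‖ : ℂ)
    have hμ : ‖μ‖ = 1 := by
      simp only [μ, norm_div, RCLike.norm_conj, Complex.norm_real, norm_norm]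
      exact div_self hz0.ne'
    have hμz : μ * z = (‖z‖ : ℂ) := by
      simp only [μ]
      rw [div_mul_eq_mul_div, ← Complex.normSq_eq_conj_mul_self, Complex.normSq_eq_norm_sq]
      push_cast
      have : (‖z‖ : ℂ) ≠ 0 := by exact_mod_cast hz0.ne'
      field_simp
    have hk1 := km1_pos hk
    have key : ∀ η : ℝ, 0 < η → ‖z‖ ≤ 1 + ((k : ℝ) - 1) * η := by
      intro η hη
      have h1 := emb_step hk hx'.le hη hμ
      set h' : ℝ := η / (1 + ((k : ℝ) - 1) * η) with hh'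
      have hden : 0 < 1 + ((k : ℝ) - 1) * η := by positivity
      have hh0 : 0 < h' := by positivity
      have e1 : e (a, b + ((h' : ℝ) : ℂ) * μ * a ^ k) = e (a, b) + ((h' : ℂ) * μ) • (a ^ k • e (0, 1)) := by
        rw [← map_smul, ← map_smul, ← map_add]
        congr 1
        ext
        · simp
        · simp [mul_assoc]
      have e2 : f (e (a, b + ((h' : ℝ) : ℂ) * μ * a ^ k)) = ((1 + h' * ‖z‖ : ℝ) : ℂ) := by
        rw [e1, map_add, hfx, map_smul, ← hzdef, smul_eq_mul, mul_assoc, hμz]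
        push_cast
        ring
      have e3 := f.le_opNorm (e (a, b + ((h' : ℝ) : ℂ) * μ * a ^ k))
      have e3' : ‖e (a, b + ((h' : ℝ) : ℂ) * μ * a ^ k)‖ ≤ 1 + η := (hn _).trans_le h1
      rw [e2, hf, one_mul, Complex.norm_real, Real.norm_of_nonneg (by positivity)] at e3
      have e4' : 1 + h' * ‖z‖ ≤ 1 + η := e3.trans e3'
      have e4 : h' * ‖z‖ ≤ η := by linarith
      have e5 : h' * (1 + ((k : ℝ) - 1) * η) = η := by
        rw [hh']; field_simp
      have e6 : h' * ‖z‖ ≤ h' * (1 + ((k : ℝ) - 1) * η) := by rw [e5]; exact e4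
      exact le_of_mul_le_mul_left e6 hh0
    refine le_of_forall_pos_le_add (fun ε hε => ?_)
    have h2 := key (ε / ((k : ℝ) - 1)) (by positivity)
    rwa [mul_div_cancel₀ _ hk1.ne'] at h2

lemma inv_eq : 1 / ((k : ℝ) * WW k) = (k : ℝ) ^ ((k : ℝ) / (1 - (k : ℝ))) := by
  have hk0 : (0 : ℝ) < k := by positivity
  have hk1 := km1_pos hk
  have h1 : (k : ℝ) * WW k = (k : ℝ) ^ ((k : ℝ) / ((k : ℝ) - 1)) := rho_eq hk
  rw [h1, one_div, ← Real.rpow_neg hk0.le]
  congr 1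
  rw [← div_neg, neg_sub]

/-- Lower bound for every complex space. -/
lemma lower_bound (X : Type u) [NormedAddCommGroup X] [NormedSpace ℂ X] [Nontrivial X] :
    (k : ℝ) ^ ((k : ℝ) / (1 - (k : ℝ))) ≤ polyIndex ℂ X k := by
  apply le_polyIndex
  intro A hA
  have hk0 : (0 : ℝ) < k := by positivity
  have hK : 0 < (k : ℝ) ^ ((k : ℝ) / ((k : ℝ) - 1)) := Real.rpow_pos_of_pos hk0 _
  have h1 : polyNorm A ≤ (k : ℝ) ^ ((k : ℝ) / ((k : ℝ) - 1)) * numRadius A := by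
    apply Real.sSup_le _ (mul_nonneg hK.le (numRadius_nonneg A))
    rintro r ⟨x, hx, rfl⟩
    exact harris hk A hx
  have h2 : (k : ℝ) ^ ((k : ℝ) / (1 - (k : ℝ))) = ((k : ℝ) ^ ((k : ℝ) / ((k : ℝ) - 1)))⁻¹ := by
    rw [← Real.rpow_neg hk0.le]
    congr 1
    rw [← div_neg, neg_sub]
  rw [hA] at h1
  rw [h2]
  rwa [inv_le_iff_one_le_mul₀' hK]

end ends

/-- Passing to a larger universe. -/
lemma indexRange_ulift {𝕜 : Type} [RCLike 𝕜] {k : ℕ} (hk : k ≠ 0) :
    indexRange.{0} 𝕜 k ⊆ indexRange.{u} 𝕜 k := by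
  rintro r ⟨X, i1, i2, i3, i4, rfl⟩
  refine ⟨ULift.{u} X, inferInstance, inferInstance, inferInstance, inferInstance, ?_⟩
  exact (polyIndex_congr hk (LinearIsometryEquiv.ulift 𝕜 X)).symm

/-- **Theorem.** For every `k ≥ 2` the set of values of the polynomial numerical index of order `k`
of complex Banach spaces is the interval `[k ^ (k / (1 - k)), 1]`. -/
theorem result (k : ℕ) (hk : 2 ≤ k) :
    indexRange.{u} ℂ k = Set.Icc ((k : ℝ) ^ ((k : ℝ) / (1 - (k : ℝ)))) 1 := by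
  apply Set.Subset.antisymm
  · rintro r ⟨X, i1, i2, i3, i4, rfl⟩
    exact ⟨lower_bound hk X, polyIndex_le_one⟩
  · refine Set.Subset.trans ?_ (indexRange_ulift (by omega))
    rw [← inv_eq hk]
    exact ivt (emb k) (LinearMap.id : (ℂ × ℂ) →ₗ[ℂ] (ℂ × ℂ)) (emb_inj hk) id_inj (by omega)
      (index_left hk) (index_right hk)

end Pool.Agent.Results.MP_046d9d_an.ComplexRange
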