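import Mathlib
import Pool.Agent.Lib.MP_046d9d_an.Defs
import Pool.Agent.Lib.MP_046d9d_an.Basic
import Pool.Agent.Lib.MP_046d9d_an.Main
import Pool.Agent.Lib.MP_046d9d_an.Space
import Pool.Agent.Lib.MP_046d9d_an.Path

/-!
# The range of the polynomial numerical index of real Banach spaces

For every `k ≥ 2` the set `R_k` of all values `n^(k)(X)`, `X` a nonzero real Banach space, is the
whole interval `[0, 1]`.

The new ingredient is a real Banach space `XX`, of infinite dimension, all of whose polynomial
numerical indices are equal to `1` (`index_XX`).  It is the closure in the space of bounded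
sequences of the space of all sequences `x` with `x m = (x (par1 m) + x (par2 m)) / 2` for all
large `m`, where every pair of indices occurs infinitely often as `(par1 m, par2 m)`.
-/

set_option autoImplicit false

namespace Pool.Agent.Results.MP_046d9d_an.RealRange

open Pool.Agent.Lib.MP_046d9d_an

universe u

/-- first basis vector -/
noncomputable def u₁ : XX := ⟨bump 0, DD_le 0 (bump_mem 0)⟩

/-- second basis vector -/
noncomputable def u₂ : XX := ⟨bump 1, DD_le 1 (bump_mem 1)⟩

lemma h11 : ev 0 u₁ = 1 := bumpFn_self 0

lemma h12 : ev 0 u₂ = 0 := bumpFn_lt one_pos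

lemma h21 : ev 1 u₁ = 0 := by
  change bumpFn 0 1 = 0
  rw [bumpFn]
  simp

lemma h22 : ev 1 u₂ = 1 := bumpFn_self 1

instance : Nontrivial XX := by
  refine ⟨⟨u₁, 0, fun h => ?_⟩⟩
  have h1 := h11
  rw [h, map_zero] at h1
  exact zero_ne_one h1

/-- All polynomial numerical indices of the real Banach space `XX` are `1`. -/
theorem index_XX (k : ℕ) : polyIndex ℝ XX k = 1 := frame.polyIndex_eq_one k

/-- **Theorem.** For every `k ≥ 2`, the set of all values of the polynomial numerical index of
order `k` on nonzero real Banach spaces is the interval `[0, 1]`. -/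
theorem result (k : ℕ) (hk : 2 ≤ k) : indexRange.{u} ℝ k = Set.Icc 0 1 := by
  apply Set.Subset.antisymm
  · rintro r ⟨X, i1, i2, i3, i4, rfl⟩
    refine ⟨?_, polyIndex_le_one⟩
    apply le_polyIndex
    intro A _
    exact numRadius_nonneg A
  · refine Set.Subset.trans ?_ (indexRange_ulift (by omega))
    have h := Icc_subset_indexRange hk XX (ev 0) (ev 1) u₁ u₂ h11 h12 h21 h22
    rwa [index_XX] at h

end Pool.Agent.Results.MP_046d9d_an.RealRange
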